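import Mathlib

/-!
# The exponential on a normed field extension of `ℚ_[p]`

Local isomorphism between the additive group near `0` and the multiplicative group near `1`.
-/

set_option autoImplicit false

open Filter Topology NormedSpace

namespace Pool.Agent.Helper56.DML

section

variable (p : ℕ) [hp : Fact p.Prime] (L : Type*) [NormedField L] [NormedAlgebra ℚ_[p] L]

lemma norm_natCast_L (n : ℕ) : ‖(n : L)‖ = ‖(n : ℚ_[p])‖ := by
  rw [← norm_algebraMap' L (n : ℚ_[p]), map_natCast]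

lemma norm_intCast_L (n : ℤ) : ‖(n : L)‖ = ‖(n : ℚ_[p])‖ := by
  rw [← norm_algebraMap' L (n : ℚ_[p]), map_intCast]

include p in
lemma norm_natCast_le_one_L (n : ℕ) : ‖(n : L)‖ ≤ 1 := by
  rw [norm_natCast_L p L]
  exact_mod_cast Padic.norm_int_le_one (p := p) (n : ℤ)

include p in
lemma ultra_L : IsUltrametricDist L :=
  IsUltrametricDist.isUltrametricDist_of_forall_norm_natCast_le_one (norm_natCast_le_one_L p L)

lemma norm_factorial_inv_le (n : ℕ) : ‖((n.factorial : ℚ_[p])⁻¹)‖ ≤ (p : ℝ) ^ n := by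
  have hpp := hp.out
  have h0 : ((n.factorial : ℕ) : ℚ_[p]) ≠ 0 := by
    exact_mod_cast n.factorial_ne_zero
  rw [norm_inv, Padic.norm_eq_zpow_neg_valuation h0, Padic.valuation_natCast, zpow_neg, inv_inv,
    zpow_natCast]
  have h1 : padicValNat p n.factorial ≤ n := by
    have := sub_one_mul_padicValNat_factorial (p := p) n
    have h2 : 1 ≤ p - 1 := by have := hpp.two_le; omega
    calc padicValNat p n.factorial = 1 * padicValNat p n.factorial := (one_mul _).symm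
      _ ≤ (p - 1) * padicValNat p n.factorial := Nat.mul_le_mul_right _ h2
      _ = n - (p.digits n).sum := this
      _ ≤ n := Nat.sub_le _ _
  exact pow_le_pow_right₀ (by exact_mod_cast hpp.one_lt.le) h1

lemma radius_pos : 0 < (expSeries ℚ_[p] L).radius := by
  have hpp := hp.out
  have hp0 : (0 : ℝ) < p := by exact_mod_cast hpp.pos
  have : ENNReal.ofReal ((p : ℝ)⁻¹) ≤ (expSeries ℚ_[p] L).radius := by
    refine FormalMultilinearSeries.le_radius_of_bound _ 1 fun n => ?_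
    have h1 : ‖expSeries ℚ_[p] L n‖ ≤ (p : ℝ) ^ n := by
      have h3 : expSeries ℚ_[p] L n = ((n.factorial : ℚ_[p])⁻¹) •
          ContinuousMultilinearMap.mkPiAlgebraFin ℚ_[p] n L := rfl
      rw [h3, norm_smul, ContinuousMultilinearMap.norm_mkPiAlgebraFin, mul_one]
      exact norm_factorial_inv_le p n
    have h2 : ((Real.toNNReal (p : ℝ)⁻¹ : NNReal) : ℝ) = (p : ℝ)⁻¹ :=
      Real.coe_toNNReal _ (by positivity)
    rw [h2]
    calc ‖expSeries ℚ_[p] L n‖ * ((p : ℝ)⁻¹) ^ n ≤ (p : ℝ) ^ n * ((p : ℝ)⁻¹) ^ n := by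
          gcongr
      _ = 1 := by rw [← mul_pow, mul_inv_cancel₀ hp0.ne', one_pow]
  refine lt_of_lt_of_le ?_ this
  rw [ENNReal.ofReal_pos]
  positivity

variable [CompleteSpace L]

/-- All that is used about the exponential function. -/
lemma exists_exp : ∃ r : ℝ, 0 < r ∧
    (∀ x y : L, ‖x‖ < r → ‖y‖ < r → exp (x + y) = exp x * exp y) ∧
    (∀ x : L, ‖x‖ < r → ∀ n : ℕ, exp ((n : L) * x) = exp x ^ n) ∧
    (∀ x : L, ‖x‖ < r → exp x ≠ 0) ∧
    (∃ δ : ℝ, 0 < δ ∧ ∀ u : L, ‖u - 1‖ < δ → ∃ x : L, ‖x‖ < r ∧ ‖x‖ ≤ 2 * ‖u - 1‖ ∧ exp x = u) ∧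
    (∀ x : L, ‖x‖ < r → ‖exp x - 1‖ ≤ 2 * ‖x‖) ∧
    AnalyticAt ℚ_[p] (exp : L → L) 0 := by
  have hultra := ultra_L p L
  have hR := radius_pos p L
  have hsd : HasStrictFDerivAt (exp : L → L) (1 : L →L[ℚ_[p]] L) 0 :=
    hasStrictFDerivAt_exp_zero_of_radius_pos hR
  have hfd := hsd.hasFDerivAt
  have hlittle := hfd.isLittleO
  have hev : ∀ᶠ x : L in 𝓝 0, ‖exp x - 1 - x‖ ≤ (1 / 2) * ‖x‖ := by
    have := hlittle.def (show (0 : ℝ) < 1 / 2 by norm_num)
    filter_upwards [this] with x hx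
    simpa using hx
  obtain ⟨r1, hr1, hr1'⟩ := Metric.eventually_nhds_iff.mp hev
  -- the radius
  obtain ⟨ρ, hρ0, hρ⟩ : ∃ ρ : ℝ, 0 < ρ ∧ ENNReal.ofReal ρ ≤ (expSeries ℚ_[p] L).radius := by
    by_cases htop : (expSeries ℚ_[p] L).radius = ⊤
    · exact ⟨1, one_pos, by rw [htop]; exact le_top⟩
    · exact ⟨(expSeries ℚ_[p] L).radius.toReal, ENNReal.toReal_pos hR.ne' htop,
        by rw [ENNReal.ofReal_toReal htop]⟩
  have hball : ∀ x : L, ‖x‖ < ρ → x ∈ Metric.eball (0 : L) (expSeries ℚ_[p] L).radius := by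
    intro x hx
    rw [Metric.mem_eball, edist_zero_right]
    refine lt_of_lt_of_le ?_ hρ
    rw [← ofReal_norm]
    exact (ENNReal.ofReal_lt_ofReal_iff hρ0).mpr hx
  set r := min (min r1 ρ) 1 with hr
  have hr0 : 0 < r := by
    rw [hr]; exact lt_min (lt_min hr1 hρ0) one_pos
  have hrr1 : r ≤ r1 := (min_le_left _ _).trans (min_le_left _ _)
  have hrρ : r ≤ ρ := (min_le_left _ _).trans (min_le_right _ _)
  have hadd : ∀ x y : L, ‖x‖ < r → ‖y‖ < r → exp (x + y) = exp x * exp y := fun x y hx hy =>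
    exp_add_of_mem_ball (𝕂 := ℚ_[p]) (hball x (hx.trans_le hrρ)) (hball y (hy.trans_le hrρ))
  have hbound : ∀ x : L, ‖x‖ < r → ‖exp x - 1 - x‖ ≤ (1 / 2) * ‖x‖ := fun x hx =>
    hr1' (by rw [dist_zero_right]; exact hx.trans_le hrr1)
  have hmul : ∀ x : L, ‖x‖ < r → ∀ n : ℕ, ‖(n : L) * x‖ < r := fun x hx n => by
    rw [norm_mul]
    calc ‖(n : L)‖ * ‖x‖ ≤ 1 * ‖x‖ :=
          mul_le_mul_of_nonneg_right (norm_natCast_le_one_L p L n) (norm_nonneg _)
      _ < r := by rwa [one_mul]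
  refine ⟨r, hr0, hadd, ?_, ?_, ?_, ?_, ?_⟩
  · intro x hx n
    induction n with
    | zero => simp
    | succ n ih =>
      rw [Nat.cast_succ, add_mul, one_mul, hadd _ _ (hmul x hx n) hx, ih, pow_succ]
  · intro x hx h0
    have h1 := hadd x (-x) hx (by rwa [norm_neg])
    rw [add_neg_cancel, NormedSpace.exp_zero, h0, zero_mul] at h1
    exact one_ne_zero h1
  · -- surjectivity
    have hsurj : map (exp : L → L) (𝓝 0) = 𝓝 1 := by
      have := hsd.map_nhds_eq_of_surj (by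
        rw [LinearMap.range_eq_top]
        intro y; exact ⟨y, rfl⟩)
      rwa [NormedSpace.exp_zero] at this
    have hmem : (exp : L → L) '' (Metric.ball 0 r) ∈ 𝓝 (1 : L) := by
      rw [← hsurj]
      exact image_mem_map (Metric.ball_mem_nhds 0 hr0)
    obtain ⟨δ, hδ, hδ'⟩ := Metric.mem_nhds_iff.mp hmem
    refine ⟨δ, hδ, fun u hu => ?_⟩
    obtain ⟨x, hx, rfl⟩ := hδ' (show u ∈ Metric.ball 1 δ by rwa [mem_ball_iff_norm])
    rw [mem_ball_zero_iff] at hx
    refine ⟨x, hx, ?_, rfl⟩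
    have h1 := hbound x hx
    have h2 : ‖x‖ ≤ ‖exp x - 1‖ + ‖exp x - 1 - x‖ := by
      have : x = (exp x - 1) - (exp x - 1 - x) := by ring
      calc ‖x‖ = ‖(exp x - 1) - (exp x - 1 - x)‖ := by rw [← this]
        _ ≤ _ := norm_sub_le _ _
    linarith
  · intro x hx
    have h1 := hbound x hx
    have h2 : ‖exp x - 1‖ ≤ ‖exp x - 1 - x‖ + ‖x‖ := by
      have : exp x - 1 = (exp x - 1 - x) + x := by ring
      calc ‖exp x - 1‖ = ‖(exp x - 1 - x) + x‖ := by rw [← this]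
        _ ≤ _ := norm_add_le _ _
    linarith [norm_nonneg x]
  · exact (hasFPowerSeriesAt_exp_zero_of_radius_pos hR).analyticAt

end

end Pool.Agent.Helper56.DML
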