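import Mathlib
import Pool.Agent.Helper56.DML.Exp

/-!
# Sums of super-exponential monomials of absolute value one: the zero/non-zero dichotomy
-/

set_option autoImplicit false

open Filter Topology NormedSpace

namespace Pool.Agent.Helper56.DML

section

variable (p : ℕ) [hp : Fact p.Prime] {L : Type*} [NormedField L] [NormedAlgebra ℚ_[p] L]

/-- `N_n = 1 + d + ... + d^(n-1)`. -/
def gsum (d n : ℕ) : ℕ := ∑ j ∈ Finset.range n, d ^ j

lemma gsum_succ (d n : ℕ) : gsum d (n + 1) = d * gsum d n + 1 := by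
  unfold gsum
  rw [Finset.sum_range_succ', Finset.mul_sum]
  simp [pow_succ']

lemma gsum_mono {d n m : ℕ} (h : n ≤ m) : gsum d n ≤ gsum d m :=
  Finset.sum_le_sum_of_subset (Finset.range_mono h)

lemma gsum_mul (d n : ℕ) (hd : 1 ≤ d) : (d - 1) * gsum d n + 1 = d ^ n := by
  induction n with
  | zero => simp [gsum]
  | succ n ih =>
    rw [gsum_succ, pow_succ, ← ih]
    obtain ⟨e, rfl⟩ : ∃ e, d = e + 1 := ⟨d - 1, by omega⟩
    simp only [Nat.add_sub_cancel]
    ring

/-- The residues of `N_n` modulo `M` are eventually periodic. -/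
lemma gsum_periodic (d M : ℕ) (hM : 0 < M) :
    ∃ n₂ R : ℕ, 0 < R ∧ ∀ n, n₂ ≤ n → gsum d (n + R) ≡ gsum d n [MOD M] := by
  classical
  have : Finite (Fin M) := inferInstance
  obtain ⟨i, j, hij, heq⟩ := Finite.exists_ne_map_eq_of_infinite
    (fun n : ℕ => (⟨gsum d n % M, Nat.mod_lt _ hM⟩ : Fin M))
  simp only [Fin.mk.injEq] at heq
  wlog hlt : i < j generalizing i j
  · exact this j i hij.symm heq.symm (by omega)
  refine ⟨i, j - i, by omega, fun n hn => ?_⟩
  obtain ⟨k, rfl⟩ := Nat.exists_eq_add_of_le hn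
  induction k with
  | zero =>
    have : i + 0 + (j - i) = j := by omega
    rw [this, add_zero]
    exact heq.symm
  | succ k ih =>
    have e1 : i + (k + 1) + (j - i) = (i + k + (j - i)) + 1 := by ring
    have e2 : i + (k + 1) = (i + k) + 1 := by ring
    rw [e1, e2, gsum_succ, gsum_succ]
    exact ((ih (by omega)).mul_left d).add_right 1

variable [FiniteDimensional ℚ_[p] L]

include p in
/-- A unit has a power close to one (compactness of the unit sphere). -/
lemma exists_pow_near_one {ν : L} (hν : ‖ν‖ = 1) {ε : ℝ} (hε : 0 < ε) :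
    ∃ M : ℕ, 0 < M ∧ ‖ν ^ M - 1‖ < ε := by
  have hprop : ProperSpace L := FiniteDimensional.proper ℚ_[p] L
  have hcpt : IsCompact (Metric.closedBall (0 : L) 1) := isCompact_closedBall 0 1
  obtain ⟨a, -, φ, hφ, ha⟩ := hcpt.tendsto_subseq (x := fun n => ν ^ n) (fun n => by
    rw [mem_closedBall_zero_iff, norm_pow, hν, one_pow])
  have hc := ha.cauchySeq
  rw [Metric.cauchySeq_iff] at hc
  obtain ⟨N, hN⟩ := hc ε hε
  have h1 := hN (N + 1) (by omega) N le_rfl
  have hlt : φ N < φ (N + 1) := hφ (by omega)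
  refine ⟨φ (N + 1) - φ N, by omega, ?_⟩
  rw [dist_eq_norm] at h1
  simp only [Function.comp] at h1
  have h2 : ν ^ φ (N + 1) - ν ^ φ N = ν ^ φ N * (ν ^ (φ (N + 1) - φ N) - 1) := by
    rw [mul_sub, mul_one, ← pow_add]
    congr 2
    omega
  rw [h2, norm_mul, norm_pow, hν, one_pow, one_mul] at h1
  exact h1

include p in
omit [FiniteDimensional ℚ_[p] L] in
lemma pow_near_one_mul {ν : L} (hν : ‖ν‖ = 1) (M k : ℕ) : ‖ν ^ (M * k) - 1‖ ≤ ‖ν ^ M - 1‖ := by
  have hu := ultra_L p L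
  rw [pow_mul]
  set y := ν ^ M with hy
  have hy1 : ‖y‖ = 1 := by rw [hy, norm_pow, hν, one_pow]
  have h := mul_geom_sum y k
  rw [← h, norm_mul]
  have h2 : ‖∑ i ∈ Finset.range k, y ^ i‖ ≤ 1 := by
    refine IsUltrametricDist.norm_sum_le_of_forall_le_of_nonneg zero_le_one fun i _ => ?_
    rw [norm_pow, hy1, one_pow]
  calc ‖y - 1‖ * ‖∑ i ∈ Finset.range k, y ^ i‖ ≤ ‖y - 1‖ * 1 := by gcongr
    _ = ‖y - 1‖ := mul_one _

/-- **Dichotomy.** Let `μ k` be finitely many sequences with `μ k (n+1) = b k * μ k n ^ d` and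
`‖b k * μ k n ^ (d-1)‖ = 1`. If `‖d‖ < 1`, there is `R` such that on every residue class modulo
`R` the sum `∑ c k * μ k n` is either eventually zero, or eventually at least
`C * ‖d‖ ^ (κ n)` in absolute value. -/
lemma dichotomy {ι : Type*} (s : Finset ι) (d : ℕ) (hd : 2 ≤ d) (hpd : p ∣ d)
    (b c : ι → L) (μ : ι → ℕ → L)
    (hrec : ∀ k ∈ s, ∀ n, μ k (n + 1) = b k * μ k n ^ d)
    (hone : ∀ k ∈ s, ‖b k * μ k 0 ^ (d - 1)‖ = 1) :
    ∃ R : ℕ, 0 < R ∧ ∀ res : ℕ,
      (∀ᶠ n : ℕ in atTop, n ≡ res [MOD R] → ∑ k ∈ s, c k * μ k n = 0) ∨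
      (∃ C : ℝ, 0 < C ∧ ∃ κ : ℕ, ∀ᶠ n : ℕ in atTop, n ≡ res [MOD R] →
        C * ‖(d : L)‖ ^ (κ * n) ≤ ‖∑ k ∈ s, c k * μ k n‖) := by
  classical
  have hcomp : CompleteSpace L := FiniteDimensional.complete ℚ_[p] L
  have hchar : CharZero L := charZero_of_injective_algebraMap (algebraMap ℚ_[p] L).injective
  have hultra := ultra_L p L
  obtain ⟨r, hr0, hadd, hpow, hne, ⟨δ, hδ0, hlog⟩, -, hanal⟩ := exists_exp p L
  -- the ratio `ν`
  let ν : ι → L := fun k => b k * μ k 0 ^ (d - 1)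
  have hνn : ∀ k ∈ s, ∀ n, b k * μ k n ^ (d - 1) = ν k ^ (d ^ n) := by
    intro k hk n
    induction n with
    | zero => simp [ν]
    | succ n ih =>
      rw [hrec k hk n, pow_succ, pow_mul, ← ih, mul_pow, mul_pow, ← pow_mul, ← pow_mul]
      obtain ⟨e, rfl⟩ : ∃ e, d = e + 1 := ⟨d - 1, by omega⟩
      simp only [Nat.add_sub_cancel]
      rw [pow_succ (b k) e, mul_comm (e + 1) e]
      ring
  have hμn : ∀ k ∈ s, ∀ n, μ k n = μ k 0 * ν k ^ gsum d n := by
    intro k hk n
    induction n with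
    | zero => simp [gsum]
    | succ n ih =>
      have h1 : μ k (n + 1) = μ k n * (b k * μ k n ^ (d - 1)) := by
        rw [hrec k hk n]
        obtain ⟨e, rfl⟩ : ∃ e, d = e + 1 := ⟨d - 1, by omega⟩
        simp only [Nat.add_sub_cancel]
        ring
      have h2 : gsum d (n + 1) = gsum d n + d ^ n := by
        unfold gsum; rw [Finset.sum_range_succ]
      rw [h1, hνn k hk n, ih, h2, pow_add]
      ring
  -- a common exponent `M`
  have hM : ∃ M : ℕ, 0 < M ∧ ∀ k ∈ s, ‖ν k ^ M - 1‖ < δ := by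
    have : ∀ k ∈ s, ∃ M : ℕ, 0 < M ∧ ‖ν k ^ M - 1‖ < δ := fun k hk =>
      exists_pow_near_one p (hone k hk) hδ0
    choose! Mk hMk0 hMk using this
    refine ⟨∏ k ∈ s, Mk k, Finset.prod_pos hMk0, fun k hk => ?_⟩
    rw [← Finset.mul_prod_erase s Mk hk]
    exact (pow_near_one_mul p (hone k hk) _ _).trans_lt (hMk k hk)
  obtain ⟨M, hM0, hM⟩ := hM
  have : ∀ k ∈ s, ∃ l : L, ‖l‖ < r ∧ exp l = ν k ^ M := fun k hk => by
    obtain ⟨x, hx, -, hx'⟩ := hlog _ (hM k hk)
    exact ⟨x, hx, hx'⟩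
  choose! lam hlam hlamexp using this
  obtain ⟨n₂, R, hR0, hper⟩ := gsum_periodic d M hM0
  refine ⟨R, hR0, fun res => ?_⟩
  -- `ℓ k = lam k / ((d-1) M)`
  have hd1 : ((d : L) - 1) ≠ 0 := by
    have : ((d - 1 : ℕ) : L) ≠ 0 := Nat.cast_ne_zero.mpr (by omega)
    rwa [Nat.cast_sub (by omega), Nat.cast_one] at this
  have hML : (M : L) ≠ 0 := Nat.cast_ne_zero.mpr (by omega)
  let ell : ι → L := fun k => lam k / (((d : L) - 1) * M)
  -- `‖d‖ < 1`
  have hdQ : ‖(d : ℚ_[p])‖ < 1 := Padic.norm_natCast_lt_one_iff.mpr hpd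
  have hdL : ‖(d : L)‖ < 1 := by rw [norm_natCast_L p L]; exact hdQ
  have htend : Tendsto (fun n : ℕ => (d : ℚ_[p]) ^ n) atTop (𝓝 0) :=
    tendsto_pow_atTop_nhds_zero_of_norm_lt_one hdQ
  have htendL : Tendsto (fun n : ℕ => (d : L) ^ n) atTop (𝓝 0) :=
    tendsto_pow_atTop_nhds_zero_of_norm_lt_one hdL
  -- the representative `n_c`
  have hsmall : ∀ᶠ n : ℕ in atTop, ∀ k ∈ s, ‖(d : L) ^ n * ell k‖ < r := by
    rw [Filter.eventually_all_finset]
    intro k _
    have : Tendsto (fun n : ℕ => ‖(d : L) ^ n * ell k‖) atTop (𝓝 0) := by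
      have := (htendL.mul_const (ell k)).norm
      simpa using this
    exact this.eventually (gt_mem_nhds hr0)
  obtain ⟨n₃, hn₃⟩ := Filter.eventually_atTop.mp hsmall
  set nc := res + R * (n₂ + n₃) with hnc
  have hnc2 : n₂ ≤ nc := by
    have : n₂ + n₃ ≤ R * (n₂ + n₃) := Nat.le_mul_of_pos_left _ hR0
    omega
  have hnc3 : n₃ ≤ nc := by
    have : n₂ + n₃ ≤ R * (n₂ + n₃) := Nat.le_mul_of_pos_left _ hR0
    omega
  let Ck : ι → L := fun k => μ k nc * (exp ((d : L) ^ nc * ell k))⁻¹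
  have hformula : ∀ k ∈ s, ∀ n, nc ≤ n → n ≡ res [MOD R] →
      μ k n = Ck k * exp ((d : L) ^ n * ell k) := by
    intro k hk n hn hmod
    -- `N_n ≡ N_{nc} mod M`
    have hmod2 : gsum d n ≡ gsum d nc [MOD M] := by
      have h1 : nc ≡ n [MOD R] := by
        have : nc ≡ res [MOD R] := by
          rw [hnc]
          exact (Nat.modEq_iff_dvd' (by omega)).mpr ⟨n₂ + n₃, by omega⟩ |>.symm
        exact this.trans hmod.symm
      obtain ⟨t, ht⟩ := (Nat.modEq_iff_dvd' hn).mp h1
      have ht' : n = nc + R * t := by omega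
      rw [ht']
      clear ht ht' hmod h1 hn
      induction t with
      | zero => simp [Nat.ModEq]
      | succ t ih =>
        have e1 : nc + R * (t + 1) = (nc + R * t) + R := by ring
        rw [e1]
        exact (hper _ (by omega)).trans ih
    obtain ⟨j, hj⟩ := (Nat.modEq_iff_dvd' (gsum_mono hn)).mp hmod2.symm
    have hj' : gsum d n = gsum d nc + M * j := by
      have := gsum_mono (d := d) hn
      omega
    have h1 : μ k n = μ k nc * exp ((j : L) * lam k) := by
      rw [hμn k hk n, hj', pow_add, hpow _ (hlam k hk) j, hlamexp k hk, ← pow_mul, hμn k hk nc]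
      ring
    have h2 : (j : L) * lam k = (d : L) ^ n * ell k - (d : L) ^ nc * ell k := by
      have e1 := gsum_mul d n (by omega)
      have e2 := gsum_mul d nc (by omega)
      have e3 : (d : L) ^ n - (d : L) ^ nc = ((d : L) - 1) * M * j := by
        have e1' : ((d : L) - 1) * (gsum d n : L) + 1 = (d : L) ^ n := by
          have := congrArg (fun x : ℕ => (x : L)) e1
          push_cast [Nat.cast_sub (show 1 ≤ d by omega)] at this
          exact this
        have e2' : ((d : L) - 1) * (gsum d nc : L) + 1 = (d : L) ^ nc := by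
          have := congrArg (fun x : ℕ => (x : L)) e2
          push_cast [Nat.cast_sub (show 1 ≤ d by omega)] at this
          exact this
        rw [← e1', ← e2', hj']
        push_cast
        ring
      rw [← sub_mul, e3]
      simp only [ell]
      field_simp
    have h3 : exp ((d : L) ^ n * ell k) = exp ((j : L) * lam k) * exp ((d : L) ^ nc * ell k) := by
      rw [← hadd]
      · rw [h2]; congr 1; ring
      · rw [norm_mul]
        calc ‖(j : L)‖ * ‖lam k‖ ≤ 1 * ‖lam k‖ :=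
              mul_le_mul_of_nonneg_right (norm_natCast_le_one_L p L j) (norm_nonneg _)
          _ < r := by rw [one_mul]; exact hlam k hk
      · exact hn₃ nc hnc3 k hk
    have h4 : exp ((d : L) ^ nc * ell k) ≠ 0 := hne _ (hn₃ nc hnc3 k hk)
    rw [h1, h3]
    simp only [Ck]
    field_simp
  -- the analytic function
  let E : ℚ_[p] → L := fun T => ∑ k ∈ s, (c k * Ck k) * exp (T • ell k)
  have hE : AnalyticAt ℚ_[p] E 0 := by
    have h1 : ∀ k ∈ s, AnalyticAt ℚ_[p] (fun T : ℚ_[p] => (c k * Ck k) * exp (T • ell k)) 0 := by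
      intro k _
      have h2 : AnalyticAt ℚ_[p] (fun T : ℚ_[p] => T • ell k) 0 :=
        ((ContinuousLinearMap.smulRight (1 : ℚ_[p] →L[ℚ_[p]] ℚ_[p]) (ell k)).analyticAt 0)
      have h3 : AnalyticAt ℚ_[p] (fun T : ℚ_[p] => exp (T • ell k)) 0 := by
        refine AnalyticAt.fun_comp ?_ h2
        simpa using hanal
      exact analyticAt_const.mul h3
    have := Finset.analyticAt_sum s h1
    refine this.congr ?_
    filter_upwards with T
    simp [E]
  have hval : ∀ n, nc ≤ n → n ≡ res [MOD R] →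
      ∑ k ∈ s, c k * μ k n = E ((d : ℚ_[p]) ^ n) := by
    intro n hn hmod
    refine Finset.sum_congr rfl fun k hk => ?_
    rw [hformula k hk n hn hmod]
    have : ((d : ℚ_[p]) ^ n) • ell k = (d : L) ^ n * ell k := by
      rw [Algebra.smul_def, map_pow, map_natCast]
    rw [this]
    ring
  by_cases hzero : ∀ᶠ T in 𝓝 (0 : ℚ_[p]), E T = 0
  · left
    filter_upwards [htend.eventually hzero, eventually_ge_atTop nc] with n h1 h2 hmod
    rw [hval n h2 hmod]
    exact h1
  · right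
    obtain ⟨κ, g, hg, hg0, hEg⟩ := hE.exists_eventuallyEq_pow_smul_nonzero_iff.mpr hzero
    refine ⟨‖g 0‖ / 2, by have := norm_pos_iff.mpr hg0; positivity, κ, ?_⟩
    have hgev : ∀ᶠ T in 𝓝 (0 : ℚ_[p]), ‖g 0‖ / 2 < ‖g T‖ := by
      have := hg.continuousAt.norm
      exact this.eventually (lt_mem_nhds (by
        have := norm_pos_iff.mpr hg0
        linarith))
    filter_upwards [htend.eventually hEg, htend.eventually hgev, eventually_ge_atTop nc]
      with n h1 h2 h3 hmod
    rw [hval n h3 hmod, h1, sub_zero, norm_smul, norm_pow, norm_pow, mul_comm κ n, pow_mul,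
      norm_natCast_L p L, mul_comm (‖g 0‖ / 2)]
    exact mul_le_mul_of_nonneg_left h2.le (by positivity)

end

end Pool.Agent.Helper56.DML
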