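import Mathlib
import Pool.Agent.Helper56.DML.Units

/-!
# Filtered rings of sequences

`Fsub e` is the space of sequences `O(exp (e * d ^ n))`, and `Asub e` is the span of the Laurent
monomials of weight `≤ e` in the super-exponential sequences `w i`.
-/

set_option autoImplicit false

open Filter Topology Asymptotics

namespace Pool.Agent.Helper56.DML

section

variable {L : Type*} [NormedField L] {ι : Type*} [Fintype ι]

/-- Sequences that are `O(exp (e * d ^ n))`. -/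
def Fsub (L : Type*) [NormedField L] (d : ℕ) (e : ℝ) : Submodule L (ℕ → L) where
  carrier := {f | f =O[atTop] fun n : ℕ => Real.exp (e * (d : ℝ) ^ n)}
  add_mem' := fun hf hg => hf.add hg
  zero_mem' := isBigO_zero _ _
  smul_mem' := fun c f hf => by
    show (c • f) =O[atTop] _
    exact hf.const_smul_left c

lemma mem_Fsub {d : ℕ} {e : ℝ} {f : ℕ → L} :
    f ∈ Fsub L d e ↔ f =O[atTop] fun n : ℕ => Real.exp (e * (d : ℝ) ^ n) := Iff.rfl

lemma Fsub_mono {d : ℕ} {e e' : ℝ} (h : e ≤ e') : Fsub L d e ≤ Fsub L d e' := by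
  intro f hf
  refine IsBigO.trans (mem_Fsub.mp hf) ?_
  refine IsBigO.of_bound 1 (Eventually.of_forall fun n => ?_)
  rw [one_mul, Real.norm_eq_abs, Real.norm_eq_abs, abs_of_pos (Real.exp_pos _),
    abs_of_pos (Real.exp_pos _)]
  exact Real.exp_le_exp.mpr (mul_le_mul_of_nonneg_right h (by positivity))

lemma Fsub_mul {d : ℕ} {e e' : ℝ} {f g : ℕ → L} (hf : f ∈ Fsub L d e) (hg : g ∈ Fsub L d e') :
    f * g ∈ Fsub L d (e + e') := by
  rw [mem_Fsub] at *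
  have := hf.mul hg
  refine this.congr_right fun n => ?_
  rw [← Real.exp_add]
  congr 1; ring

lemma Fsub_shift {d : ℕ} {e : ℝ} {f : ℕ → L} (hf : f ∈ Fsub L d e) :
    (fun n => f (n + 1)) ∈ Fsub L d (d * e) := by
  rw [mem_Fsub] at *
  have := hf.comp_tendsto (tendsto_add_atTop_nat 1)
  refine this.congr_right fun n => ?_
  simp only [Function.comp]
  congr 1; ring

/-- The Laurent monomial `∏ i, w i n ^ k i`. -/
noncomputable def mono (w : ι → ℕ → L) (k : ι → ℤ) (n : ℕ) : L := ∏ i, w i n ^ k i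

/-- The weight `∑ k i * lam i` of an exponent. -/
noncomputable def wt (lam : ι → ℝ) (k : ι → ℤ) : ℝ := ∑ i, (k i : ℝ) * lam i

lemma wt_add (lam : ι → ℝ) (k l : ι → ℤ) : wt lam (k + l) = wt lam k + wt lam l := by
  unfold wt
  rw [← Finset.sum_add_distrib]
  refine Finset.sum_congr rfl fun i _ => ?_
  rw [Pi.add_apply]; push_cast; ring

lemma wt_sub (lam : ι → ℝ) (k l : ι → ℤ) : wt lam (k - l) = wt lam k - wt lam l := by
  unfold wt
  rw [← Finset.sum_sub_distrib]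
  refine Finset.sum_congr rfl fun i _ => ?_
  rw [Pi.sub_apply]; push_cast; ring

lemma wt_nsmul (lam : ι → ℝ) (d : ℕ) (k : ι → ℤ) : wt lam (fun i => (d : ℤ) * k i) =
    d * wt lam k := by
  unfold wt
  rw [Finset.mul_sum]
  refine Finset.sum_congr rfl fun i _ => ?_
  push_cast; ring

/-- The span of the Laurent monomials of weight `≤ e`. -/
noncomputable def Asub (w : ι → ℕ → L) (lam : ι → ℝ) (e : ℝ) : Submodule L (ℕ → L) :=
  Submodule.span L {f | ∃ k : ι → ℤ, wt lam k ≤ e ∧ f = mono w k}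

variable {w : ι → ℕ → L} {lam : ι → ℝ}

lemma Asub_mono {e e' : ℝ} (h : e ≤ e') : Asub w lam e ≤ Asub w lam e' := by
  refine Submodule.span_mono ?_
  rintro f ⟨k, hk, rfl⟩
  exact ⟨k, hk.trans h, rfl⟩

lemma mono_mem {k : ι → ℤ} {e : ℝ} (h : wt lam k ≤ e) : mono w k ∈ Asub w lam e :=
  Submodule.subset_span ⟨k, h, rfl⟩

lemma mono_zero : mono w (0 : ι → ℤ) = 1 := by
  funext n
  simp [mono]

lemma mono_add (hw0 : ∀ i n, w i n ≠ 0) (k l : ι → ℤ) : mono w (k + l) = mono w k * mono w l := by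
  funext n
  show ∏ i, w i n ^ (k + l) i = (∏ i, w i n ^ k i) * ∏ i, w i n ^ l i
  rw [← Finset.prod_mul_distrib]
  refine Finset.prod_congr rfl fun i _ => ?_
  rw [Pi.add_apply, zpow_add₀ (hw0 i n)]

lemma Asub_mul (hw0 : ∀ i n, w i n ≠ 0) {e e' : ℝ} {f g : ℕ → L} (hf : f ∈ Asub w lam e)
    (hg : g ∈ Asub w lam e') : f * g ∈ Asub w lam (e + e') := by
  have h1 : f * g ∈ Asub w lam e * Asub w lam e' := Submodule.mul_mem_mul hf hg
  refine (?_ : Asub w lam e * Asub w lam e' ≤ Asub w lam (e + e')) h1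
  unfold Asub
  rw [Submodule.span_mul_span]
  refine Submodule.span_mono ?_
  rintro _ ⟨_, ⟨k, hk, rfl⟩, _, ⟨l, hl, rfl⟩, rfl⟩
  refine ⟨k + l, ?_, ?_⟩
  · rw [wt_add]; linarith
  · simp only
    rw [mono_add hw0]

lemma exp_int_mul' (x : ℝ) (k : ℤ) : Real.exp ((k : ℝ) * x) = Real.exp x ^ k := by
  rw [mul_comm, Real.exp_mul, Real.rpow_intCast]

lemma norm_mono {d : ℕ} {A : ι → ℝ}
    (hnorm : ∀ i n, ‖w i n‖ = Real.exp (A i) * Real.exp (lam i * (d : ℝ) ^ n)) (k : ι → ℤ)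
    (n : ℕ) : ‖mono w k n‖ = Real.exp (wt A k) * Real.exp (wt lam k * (d : ℝ) ^ n) := by
  unfold mono wt
  rw [norm_prod, Finset.sum_mul, Real.exp_sum, Real.exp_sum, ← Finset.prod_mul_distrib]
  refine Finset.prod_congr rfl fun i _ => ?_
  rw [norm_zpow, hnorm, mul_zpow, ← exp_int_mul', ← exp_int_mul']
  congr 2
  ring

lemma Asub_le_Fsub {d : ℕ} {A : ι → ℝ}
    (hnorm : ∀ i n, ‖w i n‖ = Real.exp (A i) * Real.exp (lam i * (d : ℝ) ^ n)) (e : ℝ) :
    Asub w lam e ≤ Fsub L d e := by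
  refine Submodule.span_le.mpr ?_
  rintro f ⟨k, hk, rfl⟩
  show (mono w k) =O[atTop] _
  refine IsBigO.of_bound (Real.exp (wt A k)) (Eventually.of_forall fun n => ?_)
  rw [norm_mono hnorm, Real.norm_eq_abs, abs_of_pos (Real.exp_pos _)]
  refine mul_le_mul_of_nonneg_left ?_ (Real.exp_pos _).le
  exact Real.exp_le_exp.mpr (mul_le_mul_of_nonneg_right hk (by positivity))

lemma mono_shift {d : ℕ} {a : ι → L} (hrec : ∀ i n, w i (n + 1) = a i * w i n ^ d) (k : ι → ℤ)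
    (n : ℕ) : mono w k (n + 1) = (∏ i, a i ^ k i) * mono w k n ^ d := by
  unfold mono
  rw [← Finset.prod_pow, ← Finset.prod_mul_distrib]
  refine Finset.prod_congr rfl fun i _ => ?_
  rw [hrec, mul_zpow, ← zpow_natCast, ← zpow_natCast, ← zpow_mul, ← zpow_mul, mul_comm (d : ℤ)]

lemma mono_pow (d : ℕ) (k : ι → ℤ) (n : ℕ) :
    mono w k n ^ d = mono w (fun i => (d : ℤ) * k i) n := by
  unfold mono
  rw [← Finset.prod_pow]
  refine Finset.prod_congr rfl fun i _ => ?_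
  rw [← zpow_natCast, ← zpow_mul, mul_comm]

lemma Asub_shift {d : ℕ} {a : ι → L} (hrec : ∀ i n, w i (n + 1) = a i * w i n ^ d) {e : ℝ}
    {f : ℕ → L} (hf : f ∈ Asub w lam e) : (fun n => f (n + 1)) ∈ Asub w lam (d * e) := by
  unfold Asub at hf
  induction hf using Submodule.span_induction with
  | mem f hf =>
    obtain ⟨k, hk, rfl⟩ := hf
    have : (fun n => mono w k (n + 1)) = (∏ i, a i ^ k i) • mono w (fun i => (d : ℤ) * k i) := by
      funext n
      rw [mono_shift hrec, mono_pow, Pi.smul_apply, smul_eq_mul]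
    rw [this]
    refine Submodule.smul_mem _ _ (mono_mem ?_)
    rw [wt_nsmul]
    exact mul_le_mul_of_nonneg_left hk (Nat.cast_nonneg d)
  | zero => exact Submodule.zero_mem _
  | add f g _ _ hf hg => exact Submodule.add_mem _ hf hg
  | smul c f _ hf => exact Submodule.smul_mem _ c hf

/-! ### The approximation classes `C J = Asub (-γ) ⊔ Fsub (-J)` -/

/-- `u` is a Laurent polynomial of weight `≤ -γ` up to an error `O(exp (-J d^n))`. -/
noncomputable def Cls (w : ι → ℕ → L) (lam : ι → ℝ) (d : ℕ) (γ J : ℝ) : Submodule L (ℕ → L) :=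
  Asub w lam (-γ) ⊔ Fsub L d (-J)

variable {d : ℕ} {A : ι → ℝ} {a : ι → L}

lemma Cls_anti {γ J J' : ℝ} (h : J ≤ J') : Cls w lam d γ J' ≤ Cls w lam d γ J :=
  sup_le_sup_left (Fsub_mono (by linarith)) _

lemma Cls_le_Fsub (hnorm : ∀ i n, ‖w i n‖ = Real.exp (A i) * Real.exp (lam i * (d : ℝ) ^ n))
    {γ J : ℝ} (h : γ ≤ J) : Cls w lam d γ J ≤ Fsub L d (-γ) :=
  sup_le (Asub_le_Fsub hnorm _) (Fsub_mono (by linarith))

lemma Cls_mul (hw0 : ∀ i n, w i n ≠ 0)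
    (hnorm : ∀ i n, ‖w i n‖ = Real.exp (A i) * Real.exp (lam i * (d : ℝ) ^ n))
    {γ J : ℝ} (hγ : 0 ≤ γ) (hJ : γ ≤ J) {f g : ℕ → L} (hf : f ∈ Cls w lam d γ J)
    (hg : g ∈ Cls w lam d γ J) : f * g ∈ Cls w lam d γ J := by
  obtain ⟨f1, hf1, f2, hf2, rfl⟩ := Submodule.mem_sup.mp hf
  obtain ⟨g1, hg1, g2, hg2, rfl⟩ := Submodule.mem_sup.mp hg
  have e : (f1 + f2) * (g1 + g2) = f1 * g1 + (f1 * g2 + f2 * g1 + f2 * g2) := by ring
  rw [e]
  refine Submodule.add_mem_sup ?_ ?_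
  · exact Asub_mono (by linarith) (Asub_mul hw0 hf1 hg1)
  · refine Submodule.add_mem _ (Submodule.add_mem _ ?_ ?_) ?_
    · exact Fsub_mono (by linarith) (Fsub_mul (Asub_le_Fsub hnorm _ hf1) hg2)
    · exact Fsub_mono (by linarith) (Fsub_mul hf2 (Asub_le_Fsub hnorm _ hg1))
    · exact Fsub_mono (by linarith) (Fsub_mul hf2 hg2)

/-- Multiplying by a Laurent polynomial of weight `≤ e`. -/
lemma Asub_mul_Cls (hw0 : ∀ i n, w i n ≠ 0)
    (hnorm : ∀ i n, ‖w i n‖ = Real.exp (A i) * Real.exp (lam i * (d : ℝ) ^ n))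
    {γ J e : ℝ} {f g : ℕ → L} (hf : f ∈ Asub w lam e)
    (hg : g ∈ Cls w lam d γ J) : f * g ∈ Asub w lam (e - γ) ⊔ Fsub L d (e - J) := by
  obtain ⟨g1, hg1, g2, hg2, rfl⟩ := Submodule.mem_sup.mp hg
  rw [mul_add]
  refine Submodule.add_mem_sup ?_ ?_
  · exact Asub_mono (by linarith) (Asub_mul hw0 hf hg1)
  · exact Fsub_mono (by linarith) (Fsub_mul (Asub_le_Fsub hnorm _ hf) hg2)

lemma one_add_mul_mem (hw0 : ∀ i n, w i n ≠ 0)
    (hnorm : ∀ i n, ‖w i n‖ = Real.exp (A i) * Real.exp (lam i * (d : ℝ) ^ n))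
    {γ J : ℝ} (hγ : 0 ≤ γ) (hJ : γ ≤ J) {f g : ℕ → L} (hf : f - 1 ∈ Cls w lam d γ J)
    (hg : g - 1 ∈ Cls w lam d γ J) : f * g - 1 ∈ Cls w lam d γ J := by
  have e : f * g - 1 = (f - 1) * (g - 1) + (f - 1) + (g - 1) := by ring
  rw [e]
  exact Submodule.add_mem _ (Submodule.add_mem _ (Cls_mul hw0 hnorm hγ hJ hf hg) hf) hg

lemma one_add_pow_mem (hw0 : ∀ i n, w i n ≠ 0)
    (hnorm : ∀ i n, ‖w i n‖ = Real.exp (A i) * Real.exp (lam i * (d : ℝ) ^ n))
    {γ J : ℝ} (hγ : 0 ≤ γ) (hJ : γ ≤ J) {f : ℕ → L} (hf : f - 1 ∈ Cls w lam d γ J) (t : ℕ) :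
    f ^ t - 1 ∈ Cls w lam d γ J := by
  induction t with
  | zero => simp
  | succ t ih =>
    rw [pow_succ]
    exact one_add_mul_mem hw0 hnorm hγ hJ ih hf

lemma one_add_prod_mem (hw0 : ∀ i n, w i n ≠ 0)
    (hnorm : ∀ i n, ‖w i n‖ = Real.exp (A i) * Real.exp (lam i * (d : ℝ) ^ n))
    {γ J : ℝ} (hγ : 0 ≤ γ) (hJ : γ ≤ J) {κ : Type*} (s : Finset κ) (f : κ → ℕ → L)
    (hf : ∀ k ∈ s, f k - 1 ∈ Cls w lam d γ J) : (∏ k ∈ s, f k) - 1 ∈ Cls w lam d γ J := by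
  classical
  induction s using Finset.induction_on with
  | empty => simp
  | insert k s hk ih =>
    rw [Finset.prod_insert hk]
    exact one_add_mul_mem hw0 hnorm hγ hJ (hf k (Finset.mem_insert_self _ _))
      (ih fun j hj => hf j (Finset.mem_insert_of_mem hj))

/-- `1 + Asub (-γ)` is closed under powers. -/
lemma one_add_pow_Asub (hw0 : ∀ i n, w i n ≠ 0) {γ : ℝ} (hγ : 0 ≤ γ) {f : ℕ → L}
    (hf : f ∈ Asub w lam (-γ)) (t : ℕ) : (1 + f) ^ t - 1 ∈ Asub w lam (-γ) := by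
  induction t with
  | zero => simp
  | succ t ih =>
    have e : (1 + f) ^ (t + 1) - 1 = ((1 + f) ^ t - 1) * f + ((1 + f) ^ t - 1) + f := by ring
    rw [e]
    refine Submodule.add_mem _ (Submodule.add_mem _ ?_ ih) hf
    exact Asub_mono (by linarith) (Asub_mul hw0 ih hf)

/-- Same for `1 + Fsub (-γ)`. -/
lemma one_add_mul_Fsub {γ : ℝ} (hγ : 0 ≤ γ) {f g : ℕ → L}
    (hf : f - 1 ∈ Fsub L d (-γ)) (hg : g - 1 ∈ Fsub L d (-γ)) : f * g - 1 ∈ Fsub L d (-γ) := by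
  have e : f * g - 1 = (f - 1) * (g - 1) + (f - 1) + (g - 1) := by ring
  rw [e]
  exact Submodule.add_mem _ (Submodule.add_mem _ (Fsub_mono (by linarith) (Fsub_mul hf hg)) hf) hg

lemma one_add_pow_Fsub {γ : ℝ} (hγ : 0 ≤ γ) {f : ℕ → L}
    (hf : f - 1 ∈ Fsub L d (-γ)) (t : ℕ) : f ^ t - 1 ∈ Fsub L d (-γ) := by
  induction t with
  | zero => simp
  | succ t ih =>
    rw [pow_succ]
    exact one_add_mul_Fsub hγ ih hf

/-- **Newton step.** If `y - 1` is known to precision `J` and `y ^ d - 1` to precision `J + γ`,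
then `y - 1` is known to precision `J + γ`. -/
lemma newton_step [CharZero L] (hd : d ≠ 0) (hw0 : ∀ i n, w i n ≠ 0)
    (hnorm : ∀ i n, ‖w i n‖ = Real.exp (A i) * Real.exp (lam i * (d : ℝ) ^ n))
    {γ J : ℝ} (hγ : 0 ≤ γ) (hJ : γ ≤ J) {y : ℕ → L} (hy : y - 1 ∈ Cls w lam d γ J)
    (hyd : y ^ d - 1 ∈ Cls w lam d γ (J + γ)) : y - 1 ∈ Cls w lam d γ (J + γ) := by
  obtain ⟨Q, hQ, f, hf, hQf⟩ := Submodule.mem_sup.mp hy
  have hyF : y - 1 ∈ Fsub L d (-γ) := Cls_le_Fsub hnorm hJ hy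
  have hQF : (1 + Q) - 1 ∈ Fsub L d (-γ) := by
    rw [add_sub_cancel_left]; exact Asub_le_Fsub hnorm _ hQ
  have hgeom : (∑ i ∈ Finset.range d, y ^ i * (1 + Q) ^ (d - 1 - i)) * (y - (1 + Q)) =
      y ^ d - (1 + Q) ^ d := (Commute.all y (1 + Q)).geom_sum₂_mul d
  have hyQ : y - (1 + Q) = f := by
    have : y = 1 + Q + f := by rw [add_assoc, hQf]; ring
    rw [this]; ring
  rw [hyQ] at hgeom
  have hsum : (∑ i ∈ Finset.range d, y ^ i * (1 + Q) ^ (d - 1 - i)) - (d : ℕ → L) ∈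
      Fsub L d (-γ) := by
    have e : (∑ i ∈ Finset.range d, y ^ i * (1 + Q) ^ (d - 1 - i)) - (d : ℕ → L) =
        ∑ i ∈ Finset.range d, (y ^ i * (1 + Q) ^ (d - 1 - i) - 1) := by
      rw [Finset.sum_sub_distrib]
      simp
    rw [e]
    refine Submodule.sum_mem _ fun i _ => ?_
    exact one_add_mul_Fsub hγ (one_add_pow_Fsub hγ hyF i) (one_add_pow_Fsub hγ hQF _)
  have hdf : (d : ℕ → L) * f ∈ Cls w lam d γ (J + γ) := by
    have e : (d : ℕ → L) * f = (y ^ d - 1) - ((1 + Q) ^ d - 1) -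
        ((∑ i ∈ Finset.range d, y ^ i * (1 + Q) ^ (d - 1 - i)) - (d : ℕ → L)) * f := by
      rw [sub_mul, hgeom]; ring
    rw [e]
    refine Submodule.sub_mem _ (Submodule.sub_mem _ hyd ?_) ?_
    · exact Submodule.mem_sup_left (one_add_pow_Asub hw0 hγ hQ d)
    · exact Submodule.mem_sup_right (Fsub_mono (by linarith) (Fsub_mul hsum hf))
  have hf' : f ∈ Cls w lam d γ (J + γ) := by
    have e : f = ((d : L)⁻¹) • ((d : ℕ → L) * f) := by
      funext n
      have : (d : L) ≠ 0 := Nat.cast_ne_zero.mpr hd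
      rw [Pi.smul_apply, Pi.mul_apply, smul_eq_mul, Pi.natCast_apply]
      field_simp
    rw [e]
    exact Submodule.smul_mem _ _ hdf
  rw [← hQf]
  exact Submodule.add_mem _ (Submodule.mem_sup_left hQ) hf'

end

end Pool.Agent.Helper56.DML
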