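import Mathlib
import Pool.Agent.Helper56.DML.Filtration

/-!
# Laurent expansions of the orbit to arbitrary precision
-/

set_option autoImplicit false

open Filter Topology Asymptotics

namespace Pool.Agent.Helper56.DML

section

variable {L : Type*} [NormedField L] [CharZero L] {ι : Type*} [Fintype ι]

/-- Integer exponent attached to a monomial. -/
def zexp (K : ι →₀ ℕ) : ι → ℤ := fun j => (K j : ℤ)

/-- The exponent `d * e_i`. -/
def dei [DecidableEq ι] (d : ℕ) (i : ι) : ι → ℤ := fun j => if j = i then (d : ℤ) else 0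

variable [DecidableEq ι] {w y : ι → ℕ → L} {lam A : ι → ℝ} {a : ι → L} {d : ℕ}

lemma mono_dei (i : ι) (n : ℕ) : mono w (dei d i) n = w i n ^ d := by
  unfold mono dei
  rw [Finset.prod_eq_single i]
  · simp
  · intro j _ hj
    simp [hj]
  · intro h; exact absurd (Finset.mem_univ i) h

lemma wt_dei (i : ι) : wt lam (dei d i) = d * lam i := by
  unfold wt dei
  rw [Finset.sum_eq_single i]
  · simp
  · intro j _ hj
    simp [hj]
  · intro h; exact absurd (Finset.mem_univ i) h

lemma mono_zexp (K : ι →₀ ℕ) (n : ℕ) : mono w (zexp K) n = ∏ j, w j n ^ K j := by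
  unfold mono zexp
  refine Finset.prod_congr rfl fun j _ => ?_
  rw [zpow_natCast]

lemma mono_sub_dei (hw0 : ∀ i n, w i n ≠ 0) (K : ι →₀ ℕ) (i : ι) (n : ℕ) :
    mono w (zexp K - dei d i) n = (∏ j, w j n ^ K j) / w i n ^ d := by
  have h : mono w (zexp K) = mono w (zexp K - dei d i) * mono w (dei d i) := by
    rw [← mono_add hw0, sub_add_cancel]
  have h2 := congrFun h n
  rw [Pi.mul_apply, mono_dei, mono_zexp] at h2
  rw [h2, mul_div_assoc, div_self (pow_ne_zero _ (hw0 i n)), mul_one]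

/-- The inductive step on the precision. -/
lemma expansion_step (hd : 2 ≤ d) (hw0 : ∀ i n, w i n ≠ 0) (ha : ∀ i, a i ≠ 0)
    (hrec : ∀ i n, w i (n + 1) = a i * w i n ^ d)
    (hnorm : ∀ i n, ‖w i n‖ = Real.exp (A i) * Real.exp (lam i * (d : ℝ) ^ n))
    (g : ι → MvPolynomial ι L) {γ : ℝ} (hγ : 0 < γ)
    (hg : ∀ i, ∀ K ∈ (g i).support, wt lam (zexp K - dei d i) ≤ -γ)
    (hy : ∀ i n, y i (n + 1) = y i n ^ d +
      MvPolynomial.eval (fun j => w j n * y j n) (g i) / (a i * w i n ^ d))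
    {J : ℝ} (hJ : γ ≤ J) (h : ∀ i, y i - 1 ∈ Cls w lam d γ J) :
    ∀ i, y i - 1 ∈ Cls w lam d γ (J + γ) := by
  intro i
  refine newton_step (by omega) hw0 hnorm hγ.le hJ (h i) ?_
  -- the error term
  let hh : ℕ → L := ∑ K ∈ (g i).support, ((a i)⁻¹ * (g i).coeff K) •
    (mono w (zexp K - dei d i) * ∏ j, y j ^ K j)
  have hhval : ∀ n, MvPolynomial.eval (fun j => w j n * y j n) (g i) / (a i * w i n ^ d) = hh n := by
    intro n
    rw [MvPolynomial.eval_eq', Finset.sum_div]
    simp only [hh]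
    rw [Finset.sum_apply]
    refine Finset.sum_congr rfl fun K _ => ?_
    rw [Pi.smul_apply, Pi.mul_apply, mono_sub_dei hw0, Finset.prod_apply, smul_eq_mul]
    have h1 := ha i
    have h2 := pow_ne_zero d (hw0 i n)
    have h3 : ∏ j, (w j n * y j n) ^ K j = (∏ j, w j n ^ K j) * ∏ j, (y j ^ K j) n := by
      rw [← Finset.prod_mul_distrib]
      refine Finset.prod_congr rfl fun j _ => ?_
      rw [mul_pow, Pi.pow_apply]
    rw [h3]
    field_simp
  have hhmem : hh ∈ Cls w lam d γ (J + γ) := by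
    refine Submodule.sum_mem _ fun K hK => Submodule.smul_mem _ _ ?_
    have h1 : mono w (zexp K - dei d i) ∈ Asub w lam (-γ) := mono_mem (hg i K hK)
    have h2 : (∏ j, y j ^ K j) - 1 ∈ Cls w lam d γ J :=
      one_add_prod_mem hw0 hnorm hγ.le hJ _ _ fun j _ => one_add_pow_mem hw0 hnorm hγ.le hJ (h j) _
    have e : mono w (zexp K - dei d i) * ∏ j, y j ^ K j = mono w (zexp K - dei d i) +
        mono w (zexp K - dei d i) * ((∏ j, y j ^ K j) - 1) := by ring
    rw [e]
    refine Submodule.add_mem _ (Submodule.mem_sup_left h1) ?_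
    obtain ⟨u, hu, v, hv, huv⟩ := Submodule.mem_sup.mp (Asub_mul_Cls hw0 hnorm h1 h2)
    rw [← huv]
    exact Submodule.add_mem_sup (Asub_mono (by linarith) hu) (Fsub_mono (by linarith) hv)
  have hshift : (fun n => y i (n + 1) - 1) ∈ Cls w lam d γ (J + γ) := by
    obtain ⟨Q, hQ, f, hf, hQf⟩ := Submodule.mem_sup.mp (h i)
    have e : (fun n => y i (n + 1) - 1) = (fun n => Q (n + 1)) + (fun n => f (n + 1)) := by
      funext n
      have := congrFun hQf (n + 1)
      simpa using this.symm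
    rw [e]
    have hd' : (2 : ℝ) ≤ d := by exact_mod_cast hd
    refine Submodule.add_mem_sup (Asub_mono ?_ (Asub_shift hrec hQ)) (Fsub_mono ?_ (Fsub_shift hf))
    · nlinarith
    · nlinarith
  have e : y i ^ d - 1 = (fun n => y i (n + 1) - 1) - hh := by
    funext n
    rw [Pi.sub_apply, Pi.pow_apply, Pi.one_apply, Pi.sub_apply, hy i n, hhval n]
    ring
  rw [e]
  exact Submodule.sub_mem _ hshift hhmem

/-- Expansions to every precision. -/
lemma expansion (hd : 2 ≤ d) (hw0 : ∀ i n, w i n ≠ 0) (ha : ∀ i, a i ≠ 0)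
    (hrec : ∀ i n, w i (n + 1) = a i * w i n ^ d)
    (hnorm : ∀ i n, ‖w i n‖ = Real.exp (A i) * Real.exp (lam i * (d : ℝ) ^ n))
    (g : ι → MvPolynomial ι L) {γ : ℝ} (hγ : 0 < γ)
    (hg : ∀ i, ∀ K ∈ (g i).support, wt lam (zexp K - dei d i) ≤ -γ)
    (hy : ∀ i n, y i (n + 1) = y i n ^ d +
      MvPolynomial.eval (fun j => w j n * y j n) (g i) / (a i * w i n ^ d))
    (h : ∀ i, y i - 1 ∈ Fsub L d (-γ)) (J : ℝ) :
    ∀ i, y i - 1 ∈ Cls w lam d γ J := by
  have key : ∀ t : ℕ, ∀ i, y i - 1 ∈ Cls w lam d γ (γ + t * γ) := by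
    intro t
    induction t with
    | zero =>
      intro i
      refine Submodule.mem_sup_right ?_
      simpa using h i
    | succ t ih =>
      have := expansion_step hd hw0 ha hrec hnorm g hγ hg hy (J := γ + t * γ) (by
        have : (0 : ℝ) ≤ t * γ := by positivity
        linarith) ih
      intro i
      have h2 := this i
      have e : γ + ((t + 1 : ℕ) : ℝ) * γ = γ + t * γ + γ := by push_cast; ring
      rw [e]
      exact h2
  obtain ⟨t, ht⟩ := exists_nat_ge (J / γ)
  intro i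
  refine Cls_anti ?_ (key t i)
  rw [div_le_iff₀ hγ] at ht
  linarith

/-- Expansion of a polynomial along the orbit. -/
lemma eval_expansion (hd : 2 ≤ d) (hw0 : ∀ i n, w i n ≠ 0) (ha : ∀ i, a i ≠ 0)
    (hrec : ∀ i n, w i (n + 1) = a i * w i n ^ d)
    (hnorm : ∀ i n, ‖w i n‖ = Real.exp (A i) * Real.exp (lam i * (d : ℝ) ^ n))
    (g : ι → MvPolynomial ι L) {γ : ℝ} (hγ : 0 < γ)
    (hg : ∀ i, ∀ K ∈ (g i).support, wt lam (zexp K - dei d i) ≤ -γ)
    (hy : ∀ i n, y i (n + 1) = y i n ^ d +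
      MvPolynomial.eval (fun j => w j n * y j n) (g i) / (a i * w i n ^ d))
    (h : ∀ i, y i - 1 ∈ Fsub L d (-γ)) (P : MvPolynomial ι L) (M : ℝ) :
    ∃ E : ℝ, (fun n => MvPolynomial.eval (fun j => w j n * y j n) P) ∈
      Asub w lam E ⊔ Fsub L d (-M) := by
  obtain ⟨E, hE⟩ : ∃ E : ℝ, ∀ K ∈ P.support, wt lam (zexp K) ≤ E := by
    refine ⟨∑ K ∈ P.support, |wt lam (zexp K)|, fun K hK => ?_⟩
    exact (le_abs_self _).trans
      (Finset.single_le_sum (f := fun K => |wt lam (zexp K)|) (fun _ _ => abs_nonneg _) hK)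
  refine ⟨E, ?_⟩
  set J := max γ (E + M) with hJ
  have hexp := expansion hd hw0 ha hrec hnorm g hγ hg hy h J
  have e : (fun n => MvPolynomial.eval (fun j => w j n * y j n) P) =
      ∑ K ∈ P.support, P.coeff K • (mono w (zexp K) * ∏ j, y j ^ K j) := by
    funext n
    rw [MvPolynomial.eval_eq', Finset.sum_apply]
    refine Finset.sum_congr rfl fun K _ => ?_
    rw [Pi.smul_apply, Pi.mul_apply, mono_zexp, Finset.prod_apply, smul_eq_mul,
      ← Finset.prod_mul_distrib]
    congr 1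
    refine Finset.prod_congr rfl fun j _ => ?_
    rw [mul_pow, Pi.pow_apply]
  rw [e]
  refine Submodule.sum_mem _ fun K hK => Submodule.smul_mem _ _ ?_
  have h1 : mono w (zexp K) ∈ Asub w lam E := mono_mem (hE K hK)
  have h2 : (∏ j, y j ^ K j) - 1 ∈ Cls w lam d γ J :=
    one_add_prod_mem hw0 hnorm hγ.le (le_max_left _ _) _ _ fun j _ =>
      one_add_pow_mem hw0 hnorm hγ.le (le_max_left _ _) (hexp j) _
  have e : mono w (zexp K) * ∏ j, y j ^ K j = mono w (zexp K) +
      mono w (zexp K) * ((∏ j, y j ^ K j) - 1) := by ring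
  rw [e]
  refine Submodule.add_mem _ (Submodule.mem_sup_left h1) ?_
  have hJ2 : E + M ≤ J := le_max_right _ _
  obtain ⟨u, hu, v, hv, huv⟩ := Submodule.mem_sup.mp (Asub_mul_Cls hw0 hnorm h1 h2)
  rw [← huv]
  exact Submodule.add_mem_sup (Asub_mono (by linarith) hu) (Fsub_mono (by linarith) hv)

end

end Pool.Agent.Helper56.DML
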