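import Mathlib
import Pool.Agent.Helper56.DML.Expansion

/-!
# Dominance: a Laurent expansion is either very small or nonzero on residue classes
-/

set_option autoImplicit false

open Filter Topology Asymptotics

namespace Pool.Agent.Helper56.DML

/-- `C * δ ^ (κ n)` beats `exp (-η d^n)`. -/
lemma growth_beats {d : ℕ} (hd : 2 ≤ d) {δ : ℝ} (hδ : 0 < δ) (κ : ℕ) {η : ℝ} (hη : 0 < η)
    {C C' : ℝ} (hC : 0 < C) :
    ∀ᶠ n : ℕ in atTop, C' * Real.exp (-η * (d : ℝ) ^ n) < C * δ ^ (κ * n) := by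
  have hd0 : (0 : ℝ) < d := by positivity
  have hd1 : (1 : ℝ) < d := by exact_mod_cast (show 1 < d by omega)
  -- `η d^n + κ log δ n → ∞`
  have h1 : Tendsto (fun n : ℕ => (n : ℝ) * ((d : ℝ)⁻¹) ^ n) atTop (𝓝 0) :=
    tendsto_self_mul_const_pow_of_lt_one (by positivity) (inv_lt_one_of_one_lt₀ hd1)
  have h2 : Tendsto (fun n : ℕ => η + κ * Real.log δ * ((n : ℝ) * ((d : ℝ)⁻¹) ^ n)) atTop
      (𝓝 (η + κ * Real.log δ * 0)) := (h1.const_mul _).const_add _
  rw [mul_zero, add_zero] at h2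
  have h3 : Tendsto (fun n : ℕ => (d : ℝ) ^ n) atTop atTop := tendsto_pow_atTop_atTop_of_one_lt hd1
  have h4 := h3.atTop_mul_pos hη h2
  have h5 : Tendsto (fun n : ℕ => Real.exp (η * (d : ℝ) ^ n) * δ ^ (κ * n)) atTop atTop := by
    have h6 := Real.tendsto_exp_atTop.comp h4
    refine h6.congr fun n => ?_
    simp only [Function.comp]
    have e1 : δ ^ (κ * n) = Real.exp ((κ * n : ℕ) * Real.log δ) := by
      rw [Real.exp_nat_mul, Real.exp_log hδ]
    rw [e1, ← Real.exp_add]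
    congr 1
    have : (d : ℝ) ^ n * ((d : ℝ)⁻¹) ^ n = 1 := by
      rw [← mul_pow, mul_inv_cancel₀ hd0.ne', one_pow]
    push_cast
    calc (d : ℝ) ^ n * (η + κ * Real.log δ * (n * (d : ℝ)⁻¹ ^ n))
        = η * (d : ℝ) ^ n + κ * n * Real.log δ * ((d : ℝ) ^ n * (d : ℝ)⁻¹ ^ n) := by ring
      _ = _ := by rw [this]; ring
  filter_upwards [h5.eventually_gt_atTop (C' / C)] with n hn
  rw [div_lt_iff₀ hC] at hn
  have h7 : Real.exp (-η * (d : ℝ) ^ n) * Real.exp (η * (d : ℝ) ^ n) = 1 := by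
    rw [← Real.exp_add]; simp
  calc C' * Real.exp (-η * (d : ℝ) ^ n)
      < (Real.exp (η * (d : ℝ) ^ n) * δ ^ (κ * n) * C) * Real.exp (-η * (d : ℝ) ^ n) :=
        mul_lt_mul_of_pos_right hn (Real.exp_pos _)
    _ = C * δ ^ (κ * n) * (Real.exp (-η * (d : ℝ) ^ n) * Real.exp (η * (d : ℝ) ^ n)) := by ring
    _ = C * δ ^ (κ * n) := by rw [h7, mul_one]

section

variable {L : Type*} [NormedField L]

/-- Abstract dominance along a filter. -/
lemma dominance {d : ℕ} (hd : 2 ≤ d) {δ : ℝ} (hδ : 0 < δ) (F : Filter ℕ) (hF : F ≤ atTop)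
    (W : Finset ℝ) (fe : ℝ → ℕ → L) (hfe : ∀ e ∈ W, fe e ∈ Fsub L d e)
    (hdich : ∀ e ∈ W, (∀ᶠ n in F, fe e n = 0) ∨
      (∃ C : ℝ, 0 < C ∧ ∃ κ : ℕ, ∀ᶠ n in F,
        C * δ ^ (κ * n) * Real.exp (e * (d : ℝ) ^ n) ≤ ‖fe e n‖))
    {M : ℝ} (g : ℕ → L) (hg : g ∈ Fsub L d (-M)) :
    ((fun n => ∑ e ∈ W, fe e n + g n) =O[F] fun n : ℕ => Real.exp (-M * (d : ℝ) ^ n)) ∨
      (∀ᶠ n in F, ∑ e ∈ W, fe e n + g n ≠ 0) := by
  classical
  by_cases hcase : ∀ e ∈ W, -M < e → ∀ᶠ n in F, fe e n = 0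
  · left
    refine IsBigO.add ?_ ((mem_Fsub.mp hg).mono hF)
    refine IsBigO.fun_sum fun e he => ?_
    by_cases h : -M < e
    · have h0 : (fe e) =ᶠ[F] fun _ => (0 : L) := hcase e he h
      exact h0.trans_isBigO (isBigO_zero _ _)
    · exact (mem_Fsub.mp (Fsub_mono (not_lt.mp h) (hfe e he))).mono hF
  · right
    push Not at hcase
    obtain ⟨e₁, he₁, hMe₁, hne₁⟩ := hcase
    -- the largest bad `e`
    let B := W.filter fun e => -M < e ∧ ¬ ∀ᶠ n in F, fe e n = 0
    have hBne : B.Nonempty := ⟨e₁, Finset.mem_filter.mpr ⟨he₁, hMe₁, by simpa using hne₁⟩⟩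
    set es := B.max' hBne with hes
    have hesB : es ∈ B := Finset.max'_mem _ _
    obtain ⟨hesW, hesM, hesne⟩ := Finset.mem_filter.mp hesB
    obtain ⟨C, hC, κ, hlow⟩ := (hdich es hesW).resolve_left hesne
    -- the second exponent
    let W' := insert (-M) (W.filter fun e => e < es)
    have hW'ne : W'.Nonempty := ⟨-M, Finset.mem_insert_self _ _⟩
    set e' := W'.max' hW'ne with he'
    have he'lt : e' < es := by
      have : e' ∈ W' := Finset.max'_mem _ _
      rcases Finset.mem_insert.mp this with h | h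
      · rw [h]; exact hesM
      · exact (Finset.mem_filter.mp h).2
    have hMe' : -M ≤ e' := Finset.le_max' _ _ (Finset.mem_insert_self _ _)
    -- the rest
    have hrest : (fun n => ∑ e ∈ W.erase es, fe e n + g n) =O[F]
        fun n : ℕ => Real.exp (e' * (d : ℝ) ^ n) := by
      refine IsBigO.add ?_ ((mem_Fsub.mp (Fsub_mono hMe' hg)).mono hF)
      refine IsBigO.fun_sum fun e he => ?_
      obtain ⟨hne, heW⟩ := Finset.mem_erase.mp he
      rcases lt_or_gt_of_ne hne with h | h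
      · have : e ≤ e' := Finset.le_max' _ _
          (Finset.mem_insert_of_mem (Finset.mem_filter.mpr ⟨heW, h⟩))
        exact (mem_Fsub.mp (Fsub_mono this (hfe e heW))).mono hF
      · have h0 : ∀ᶠ n in F, fe e n = 0 := by
          by_contra hcon
          have : e ∈ B := Finset.mem_filter.mpr ⟨heW, hesM.trans h, hcon⟩
          exact absurd (Finset.le_max' _ _ this) (not_le.mpr h)
        have h0' : (fe e) =ᶠ[F] fun _ => (0 : L) := h0
        exact h0'.trans_isBigO (isBigO_zero _ _)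
    obtain ⟨C', hC'⟩ := hrest.bound
    have hgrow := (growth_beats hd hδ κ (sub_pos.mpr he'lt) (C' := C') hC).filter_mono hF
    filter_upwards [hC', hgrow, hlow] with n h1 h2 h3 h4
    rw [← Finset.add_sum_erase W _ hesW] at h4
    have h5 : fe es n = -(∑ e ∈ W.erase es, fe e n + g n) := by
      have : fe es n + (∑ e ∈ W.erase es, fe e n + g n) = 0 := by rw [← add_assoc]; exact h4
      exact eq_neg_of_add_eq_zero_left this
    rw [h5, norm_neg] at h3
    have h6 : C * δ ^ (κ * n) * Real.exp (es * (d : ℝ) ^ n) ≤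
        C' * Real.exp (e' * (d : ℝ) ^ n) := by
      refine h3.trans (h1.trans ?_)
      rw [Real.norm_eq_abs, abs_of_pos (Real.exp_pos _)]
    have h7 : C' * Real.exp (e' * (d : ℝ) ^ n) =
        (C' * Real.exp (-(es - e') * (d : ℝ) ^ n)) * Real.exp (es * (d : ℝ) ^ n) := by
      rw [mul_assoc, ← Real.exp_add]
      congr 2; ring
    rw [h7] at h6
    have h8 := le_of_mul_le_mul_right h6 (Real.exp_pos _)
    exact absurd h2 (not_lt.mpr h8)

end

section

variable (p : ℕ) [Fact p.Prime] {L : Type*} [NontriviallyNormedField L] [NormedAlgebra ℚ_[p] L]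
  [FiniteDimensional ℚ_[p] L] {ι : Type*} [Fintype ι]

/-- Elements of `Asub` as finite sums of monomials. -/
lemma Asub_repr {w : ι → ℕ → L} {lam : ι → ℝ} {E : ℝ} {f : ℕ → L} (hf : f ∈ Asub w lam E) :
    ∃ (S : Finset (ι → ℤ)) (c : (ι → ℤ) → L), ∀ n, f n = ∑ k ∈ S, c k * mono w k n := by
  classical
  unfold Asub at hf
  have hset : {f | ∃ k : ι → ℤ, wt lam k ≤ E ∧ f = mono w k} = mono w '' {k | wt lam k ≤ E} := by
    ext f
    constructor
    · rintro ⟨k, hk, rfl⟩; exact ⟨k, hk, rfl⟩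
    · rintro ⟨k, hk, rfl⟩; exact ⟨k, hk, rfl⟩
  rw [hset, Finsupp.mem_span_image_iff_linearCombination] at hf
  obtain ⟨l, -, hl⟩ := hf
  refine ⟨l.support, fun k => l k, fun n => ?_⟩
  rw [← hl, Finsupp.linearCombination_apply, Finsupp.sum, Finset.sum_apply]
  rfl

/-- **Key alternative** for Laurent expansions with error. -/
lemma alternative {d : ℕ} (hd : 2 ≤ d) (hpd : p ∣ d) {w : ι → ℕ → L} {lam A : ι → ℝ} {a : ι → L}
    (hw0 : ∀ i n, w i n ≠ 0)
    (hrec : ∀ i n, w i (n + 1) = a i * w i n ^ d)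
    (hnorm : ∀ i n, ‖w i n‖ = Real.exp (A i) * Real.exp (lam i * (d : ℝ) ^ n))
    {E M : ℝ} {u : ℕ → L} (hu : u ∈ Asub w lam E ⊔ Fsub L d (-M)) :
    ∃ R : ℕ, 0 < R ∧ ∀ res : ℕ,
      (u =O[atTop ⊓ 𝓟 {n | n ≡ res [MOD R]}] fun n : ℕ => Real.exp (-M * (d : ℝ) ^ n)) ∨
      (∀ᶠ n in atTop ⊓ 𝓟 {n | n ≡ res [MOD R]}, u n ≠ 0) := by
  classical
  have hchar : CharZero L := charZero_of_injective_algebraMap (algebraMap ℚ_[p] L).injective
  obtain ⟨f, hf, g, hg, rfl⟩ := Submodule.mem_sup.mp hu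
  obtain ⟨S, c, hS⟩ := Asub_repr hf
  let W : Finset ℝ := S.image (wt lam)
  let Se : ℝ → Finset (ι → ℤ) := fun e => S.filter fun k => wt lam k = e
  let fe : ℝ → ℕ → L := fun e n => ∑ k ∈ Se e, c k * mono w k n
  have hsum : ∀ n, f n = ∑ e ∈ W, fe e n := by
    intro n
    rw [hS n]
    exact (Finset.sum_fiberwise_of_maps_to (fun k hk => Finset.mem_image_of_mem _ hk) _).symm
  have hfe : ∀ e ∈ W, fe e ∈ Fsub L d e := by
    intro e _
    have : fe e = ∑ k ∈ Se e, c k • mono w k := by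
      funext n
      simp [fe, Finset.sum_apply]
    rw [this]
    refine Submodule.sum_mem _ fun k hk => Submodule.smul_mem _ _ ?_
    refine Asub_le_Fsub hnorm e (mono_mem ?_)
    exact (Finset.mem_filter.mp hk).2.le
  -- dichotomy for each weight
  have hdich : ∀ e ∈ W, ∃ R : ℕ, 0 < R ∧ ∀ res : ℕ,
      (∀ᶠ n : ℕ in atTop, n ≡ res [MOD R] → fe e n = 0) ∨
      (∃ C : ℝ, 0 < C ∧ ∃ κ : ℕ, ∀ᶠ n : ℕ in atTop, n ≡ res [MOD R] →
        C * ‖(d : L)‖ ^ (κ * n) * Real.exp (e * (d : ℝ) ^ n) ≤ ‖fe e n‖) := by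
    intro e he
    obtain ⟨k₀, hk₀, hk₀e⟩ := Finset.mem_image.mp he
    have hfac : ∀ n, fe e n = mono w k₀ n * ∑ k ∈ Se e, c k * mono w (k - k₀) n := by
      intro n
      rw [Finset.mul_sum]
      refine Finset.sum_congr rfl fun k _ => ?_
      have h1 : mono w k n = mono w k₀ n * mono w (k - k₀) n := by
        have := congrFun (mono_add hw0 k₀ (k - k₀)) n
        rw [add_sub_cancel, Pi.mul_apply] at this
        exact this
      rw [h1]; ring
    have hmono0 : ∀ k n, mono w k n ≠ 0 := fun k n =>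
      Finset.prod_ne_zero_iff.mpr fun i _ => zpow_ne_zero _ (hw0 i n)
    obtain ⟨R, hR, hRres⟩ := dichotomy p (Se e) d hd hpd (fun k => ∏ i, a i ^ (k - k₀) i) c
      (fun k => mono w (k - k₀)) (fun k _ n => mono_shift hrec (k - k₀) n) (by
        intro k hk
        have hwt : wt lam (k - k₀) = 0 := by
          rw [wt_sub, (Finset.mem_filter.mp hk).2, hk₀e, sub_self]
        have h1 := mono_shift hrec (k - k₀) 0
        have h2 : ‖mono w (k - k₀) (0 + 1)‖ = ‖mono w (k - k₀) 0‖ := by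
          rw [norm_mono hnorm, norm_mono hnorm, hwt, zero_mul, zero_mul]
        have h3 : ‖mono w (k - k₀) 0‖ ≠ 0 := norm_ne_zero_iff.mpr (hmono0 _ _)
        rw [h1] at h2
        have h4 : (∏ i, a i ^ (k - k₀) i) * mono w (k - k₀) 0 ^ d =
            ((∏ i, a i ^ (k - k₀) i) * mono w (k - k₀) 0 ^ (d - 1)) * mono w (k - k₀) 0 := by
          rw [mul_assoc, ← pow_succ, Nat.sub_add_cancel (by omega)]
        rw [h4, norm_mul] at h2
        exact mul_right_cancel₀ h3 (h2.trans (one_mul _).symm))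
    refine ⟨R, hR, fun res => ?_⟩
    rcases hRres res with h | ⟨C, hC, κ, h⟩
    · left
      filter_upwards [h] with n hn hmod
      rw [hfac, hn hmod, mul_zero]
    · right
      refine ⟨C * Real.exp (wt A k₀), by positivity, κ, ?_⟩
      filter_upwards [h] with n hn hmod
      rw [hfac, norm_mul, norm_mono hnorm, hk₀e]
      calc C * Real.exp (wt A k₀) * ‖(d : L)‖ ^ (κ * n) * Real.exp (e * (d : ℝ) ^ n)
          = Real.exp (wt A k₀) * Real.exp (e * (d : ℝ) ^ n) * (C * ‖(d : L)‖ ^ (κ * n)) := by ring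
        _ ≤ _ := mul_le_mul_of_nonneg_left (hn hmod) (by positivity)
  choose! Re hRe0 hRe using hdich
  refine ⟨∏ e ∈ W, Re e, Finset.prod_pos hRe0, fun res => ?_⟩
  set R := ∏ e ∈ W, Re e with hR
  set F : Filter ℕ := atTop ⊓ 𝓟 {n | n ≡ res [MOD R]} with hF
  have hFle : F ≤ atTop := inf_le_left
  have hmodF : ∀ e ∈ W, ∀ᶠ n in F, n ≡ res [MOD Re e] := by
    intro e he
    rw [hF, eventually_inf_principal]
    refine Eventually.of_forall fun n hn => ?_
    exact Nat.ModEq.of_dvd (Finset.dvd_prod_of_mem _ he) hn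
  have hd0 : (0 : ℝ) < ‖(d : L)‖ := norm_pos_iff.mpr (Nat.cast_ne_zero.mpr (by omega))
  have := dominance hd hd0 F hFle W fe hfe (fun e he => by
    rcases hRe e he res with h | ⟨C, hC, κ, h⟩
    · left
      filter_upwards [h.filter_mono hFle, hmodF e he] with n h1 h2 using h1 h2
    · right
      refine ⟨C, hC, κ, ?_⟩
      filter_upwards [h.filter_mono hFle, hmodF e he] with n h1 h2 using h1 h2) g hg
  have e : (f + g) = fun n => ∑ e ∈ W, fe e n + g n := by
    funext n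
    rw [Pi.add_apply, hsum n]
  rw [e]
  exact this

end

end Pool.Agent.Helper56.DML
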