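import Mathlib
import Pool.Agent.Helper56.DML.Dominance

/-!
# The Böttcher root of a sequence `1 + O(exp (-γ d^n))`
-/

set_option autoImplicit false

open Filter Topology Asymptotics NormedSpace

namespace Pool.Agent.Helper56.DML

lemma tendsto_exp_mul {d : ℕ} (hd : 2 ≤ d) {δ : ℝ} (hδ : 0 < δ) {γ : ℝ} (hγ : 0 < γ) :
    Tendsto (fun j : ℕ => Real.exp (-γ * (d : ℝ) ^ j) * (δ⁻¹) ^ j) atTop (𝓝 0) := by
  rw [Metric.tendsto_atTop]
  intro ε hε
  obtain ⟨N, hN⟩ := Filter.eventually_atTop.mp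
    (growth_beats hd hδ 1 hγ (C := ε) (C' := 1) hε)
  refine ⟨N, fun n hn => ?_⟩
  have h := hN n hn
  rw [one_mul, one_mul] at h
  rw [Real.dist_0_eq_abs, abs_of_nonneg (by positivity), inv_pow]
  rw [← div_eq_mul_inv, div_lt_iff₀ (by positivity)]
  exact h

section

variable (p : ℕ) [Fact p.Prime] {L : Type*} [NontriviallyNormedField L] [NormedAlgebra ℚ_[p] L]
  [FiniteDimensional ℚ_[p] L]

include p in
lemma exists_root {d : ℕ} (hd : 2 ≤ d) (r : ℕ → L) {γ : ℝ} (hγ : 0 < γ)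
    (hr : r - 1 ∈ Fsub L d (-γ)) :
    ∃ (N : ℕ) (z : ℕ → L), z - 1 ∈ Fsub L d (-γ) ∧ (∀ n, N ≤ n → z n ≠ 0) ∧
      ∀ n, N ≤ n → z n ^ d = r n * z (n + 1) := by
  have hcomp : CompleteSpace L := FiniteDimensional.complete ℚ_[p] L
  have hchar : CharZero L := charZero_of_injective_algebraMap (algebraMap ℚ_[p] L).injective
  have hultra := ultra_L p L
  obtain ⟨r0, hr0, hadd, hpow, hne, ⟨δ, hδ0, hlog⟩, hsub1, -⟩ := exists_exp p L
  obtain ⟨C, hC0, hC⟩ := (mem_Fsub.mp hr).exists_pos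
  have hC := hC.bound
  have hd0 : (d : L) ≠ 0 := Nat.cast_ne_zero.mpr (by omega)
  have hd1 : (1 : ℝ) < d := by exact_mod_cast (show 1 < d by omega)
  set D0 := ‖(d : L)‖ with hD0
  have hD0pos : 0 < D0 := norm_pos_iff.mpr hd0
  have htend0 : ∀ B : ℝ, Tendsto (fun n : ℕ => B * Real.exp (-γ * (d : ℝ) ^ n)) atTop (𝓝 0) := by
    intro B
    have := (tendsto_exp_mul hd one_pos hγ).const_mul B
    simpa using this
  have hevN : ∀ᶠ n : ℕ in atTop, ‖r n - 1‖ ≤ C * Real.exp (-γ * (d : ℝ) ^ n) ∧ ‖r n - 1‖ < δ := by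
    filter_upwards [hC, (htend0 C).eventually (gt_mem_nhds hδ0)] with n h1 h2
    rw [Real.norm_eq_abs, abs_of_pos (Real.exp_pos _)] at h1
    exact ⟨h1, lt_of_le_of_lt h1 h2⟩
  obtain ⟨N1, hN1⟩ := Filter.eventually_atTop.mp hevN
  have : ∀ n, N1 ≤ n → ∃ x : L, ‖x‖ < r0 ∧ ‖x‖ ≤ 2 * C * Real.exp (-γ * (d : ℝ) ^ n) ∧
      exp x = r n := by
    intro n hn
    obtain ⟨h1, h2⟩ := hN1 n hn
    obtain ⟨x, hx1, hx2, hx3⟩ := hlog _ h2
    exact ⟨x, hx1, by linarith, hx3⟩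
  choose! ρ hρ1 hρ2 hρ3 using this
  -- bound
  obtain ⟨K, hK⟩ : ∃ K : ℝ, ∀ j : ℕ,
      Real.exp (-γ * (d : ℝ) ^ j) * (D0⁻¹) ^ j ≤ K := by
    obtain ⟨K, hK⟩ := (tendsto_exp_mul hd hD0pos hγ).bddAbove_range
    exact ⟨K, fun j => hK ⟨j, rfl⟩⟩
  set K' := 2 * C * D0⁻¹ * Real.exp γ with hK'
  have hK'0 : 0 < K' := by positivity
  have hterm0 : ∀ n, N1 ≤ n → ∀ j : ℕ, ‖ρ (n + j) / (d : L) ^ (j + 1)‖ ≤
      (K' * Real.exp (-γ * (d : ℝ) ^ n)) * (Real.exp (-γ * (d : ℝ) ^ j) * (D0⁻¹) ^ j) := by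
    intro n hn j
    rw [norm_div, norm_pow, div_eq_mul_inv, ← inv_pow]
    have h1 := hρ2 (n + j) (by omega)
    have h2 : Real.exp (-γ * (d : ℝ) ^ (n + j)) ≤
        Real.exp γ * Real.exp (-γ * (d : ℝ) ^ n) * Real.exp (-γ * (d : ℝ) ^ j) := by
      rw [← Real.exp_add, ← Real.exp_add]
      refine Real.exp_le_exp.mpr ?_
      have h3 : (1 : ℝ) ≤ (d : ℝ) ^ n := one_le_pow₀ hd1.le
      have h4 : (1 : ℝ) ≤ (d : ℝ) ^ j := one_le_pow₀ hd1.le
      rw [pow_add]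
      nlinarith [mul_nonneg hγ.le (mul_nonneg (sub_nonneg.mpr h3) (sub_nonneg.mpr h4))]
    calc ‖ρ (n + j)‖ * D0⁻¹ ^ (j + 1)
        ≤ (2 * C * Real.exp (-γ * (d : ℝ) ^ (n + j))) * D0⁻¹ ^ (j + 1) :=
          mul_le_mul_of_nonneg_right h1 (by positivity)
      _ ≤ (2 * C * (Real.exp γ * Real.exp (-γ * (d : ℝ) ^ n) * Real.exp (-γ * (d : ℝ) ^ j))) *
          D0⁻¹ ^ (j + 1) := by gcongr
      _ = _ := by rw [hK', pow_succ]; ring
  have hK0 : 0 ≤ K := (by positivity : (0 : ℝ) ≤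
    Real.exp (-γ * (d : ℝ) ^ 0) * (D0⁻¹) ^ 0).trans (hK 0)
  have hterm : ∀ n, N1 ≤ n → ∀ j : ℕ, ‖ρ (n + j) / (d : L) ^ (j + 1)‖ ≤
      (K' * K) * Real.exp (-γ * (d : ℝ) ^ n) := by
    intro n hn j
    refine (hterm0 n hn j).trans ?_
    calc (K' * Real.exp (-γ * (d : ℝ) ^ n)) * (Real.exp (-γ * (d : ℝ) ^ j) * (D0⁻¹) ^ j)
        ≤ (K' * Real.exp (-γ * (d : ℝ) ^ n)) * K :=
          mul_le_mul_of_nonneg_left (hK j) (by positivity)
      _ = _ := by ring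
  have hsummable : ∀ n, N1 ≤ n → Summable fun j : ℕ => ρ (n + j) / (d : L) ^ (j + 1) := by
    intro n hn
    refine NonarchimedeanAddGroup.summable_of_tendsto_cofinite_zero ?_
    rw [Nat.cofinite_eq_atTop]
    refine squeeze_zero_norm (hterm0 n hn) ?_
    have := (tendsto_exp_mul hd hD0pos hγ).const_mul (K' * Real.exp (-γ * (d : ℝ) ^ n))
    simpa using this
  let ζ : ℕ → L := fun n => ∑' j : ℕ, ρ (n + j) / (d : L) ^ (j + 1)
  have hζeq : ∀ n, N1 ≤ n → (d : L) * ζ n = ρ n + ζ (n + 1) := by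
    intro n hn
    have h1 := (hsummable n hn).tsum_eq_zero_add
    simp only [ζ]
    rw [h1, mul_add]
    congr 1
    · rw [add_zero, zero_add, pow_one]; field_simp
    · rw [← tsum_mul_left]
      refine tsum_congr fun j => ?_
      have : n + (j + 1) = n + 1 + j := by ring
      rw [this]
      field_simp
      ring
  have hζn : ∀ n, N1 ≤ n → ‖ζ n‖ ≤ (K' * K) * Real.exp (-γ * (d : ℝ) ^ n) := by
    intro n hn
    exact IsUltrametricDist.norm_tsum_le_of_forall_le_of_nonneg (by positivity) (hterm n hn)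
  obtain ⟨N2, hN2⟩ := Filter.eventually_atTop.mp
    ((htend0 (K' * K)).eventually (gt_mem_nhds hr0))
  have hζr : ∀ n, N1 + N2 ≤ n → ‖ζ n‖ < r0 := fun n hn =>
    (hζn n (by omega)).trans_lt (hN2 n (by omega))
  refine ⟨N1 + N2, fun n => exp (ζ n), ?_, ?_, ?_⟩
  · rw [mem_Fsub]
    refine IsBigO.of_bound (2 * (K' * K)) ?_
    filter_upwards [eventually_ge_atTop (N1 + N2)] with n hn
    rw [Pi.sub_apply, Pi.one_apply, Real.norm_eq_abs, abs_of_pos (Real.exp_pos _)]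
    have h1 := hsub1 _ (hζr n hn)
    have h2 := hζn n (by omega)
    linarith
  · intro n hn
    exact hne _ (hζr n hn)
  · intro n hn
    show exp (ζ n) ^ d = r n * exp (ζ (n + 1))
    rw [← hpow _ (hζr n hn) d, hζeq n (by omega), hadd _ _ (hρ1 n (by omega))
      (hζr (n + 1) (by omega)), hρ3 n (by omega)]

end

end Pool.Agent.Helper56.DML
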