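import Mathlib
import Pool.Agent.Helper56.DML.Root

/-!
# Conjugating the orbit to a monomial recursion
-/

set_option autoImplicit false

open Filter Topology Asymptotics

namespace Pool.Agent.Helper56.DML

section

variable (p : ℕ) [Fact p.Prime] {L : Type*} [NontriviallyNormedField L] [NormedAlgebra ℚ_[p] L]
  [FiniteDimensional ℚ_[p] L] {ι : Type*} [Fintype ι] [DecidableEq ι]

include p in
lemma exists_bottcher {d : ℕ} (hd : 2 ≤ d) (x : ι → ℕ → L) (a : ι → L) (g : ι → MvPolynomial ι L)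
    (hx : ∀ i n, x i (n + 1) = a i * x i n ^ d + MvPolynomial.eval (fun j => x j n) (g i))
    (ha : ∀ i, a i ≠ 0)
    (H1 : ∀ i, ∀ᶠ n in atTop, x i n ≠ 0)
    (H2 : ∀ i, ∀ K ∈ (g i).support,
      Tendsto (fun n => ‖∏ j, x j n ^ K j‖ / ‖x i n‖ ^ d) atTop (𝓝 0)) :
    ∃ (N : ℕ) (w y : ι → ℕ → L) (lam A : ι → ℝ) (γ : ℝ), 0 < γ ∧
      (∀ i n, w i n ≠ 0) ∧ (∀ i n, w i (n + 1) = a i * w i n ^ d) ∧
      (∀ i n, ‖w i n‖ = Real.exp (A i) * Real.exp (lam i * (d : ℝ) ^ n)) ∧
      (∀ i, ∀ K ∈ (g i).support, wt lam (zexp K - dei d i) ≤ -γ) ∧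
      (∀ i n, y i (n + 1) = y i n ^ d +
        MvPolynomial.eval (fun j => w j n * y j n) (g i) / (a i * w i n ^ d)) ∧
      (∀ i, y i - 1 ∈ Fsub L d (-γ)) ∧ (∀ i n, x i (n + N) = w i n * y i n) := by
  have hultra := ultra_L p L
  have hd1 : (1 : ℝ) < d := by exact_mod_cast (show 1 < d by omega)
  have hd0 : (0 : ℝ) < d := by positivity
  -- the quotients `q`
  let q : ι → ℕ → L := fun i n =>
    MvPolynomial.eval (fun j => x j n) (g i) / (a i * x i n ^ d)
  have hqsum : ∀ i n, q i n = ∑ K ∈ (g i).support,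
      ((a i)⁻¹ * (g i).coeff K) * ((∏ j, x j n ^ K j) / x i n ^ d) := by
    intro i n
    simp only [q]
    rw [MvPolynomial.eval_eq', Finset.sum_div]
    refine Finset.sum_congr rfl fun K _ => ?_
    rw [mul_comm (a i), div_mul_eq_div_div]
    field_simp
  have hq0 : ∀ i, Tendsto (q i) atTop (𝓝 0) := by
    intro i
    have : q i = fun n => ∑ K ∈ (g i).support,
      ((a i)⁻¹ * (g i).coeff K) * ((∏ j, x j n ^ K j) / x i n ^ d) := funext fun n => hqsum i n
    rw [this]
    have h0 : (0 : L) = ∑ K ∈ (g i).support, ((a i)⁻¹ * (g i).coeff K) * 0 := by simp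
    rw [h0]
    refine tendsto_finsetSum _ fun K hK => Tendsto.const_mul _ ?_
    rw [tendsto_zero_iff_norm_tendsto_zero]
    refine (H2 i K hK).congr fun n => ?_
    rw [norm_div, norm_pow]
  -- eventual norm recursion
  have hev : ∀ᶠ n in atTop, ∀ i, x i n ≠ 0 ∧ ‖q i n‖ < 1 := by
    rw [eventually_all]
    intro i
    refine (H1 i).and ?_
    have := (hq0 i).norm
    rw [norm_zero] at this
    exact this.eventually (gt_mem_nhds one_pos)
  obtain ⟨N0, hN0⟩ := Filter.eventually_atTop.mp hev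
  have hxq : ∀ i n, N0 ≤ n → x i (n + 1) = a i * x i n ^ d * (1 + q i n) := by
    intro i n hn
    have h1 : a i * x i n ^ d ≠ 0 := mul_ne_zero (ha i) (pow_ne_zero _ (hN0 n hn i).1)
    simp only [q]
    rw [hx, mul_add, mul_one, mul_div_cancel₀ _ h1]
  have hxnorm : ∀ i n, N0 ≤ n → ‖x i (n + 1)‖ = ‖a i‖ * ‖x i n‖ ^ d := by
    intro i n hn
    rw [hxq i n hn, norm_mul, norm_mul, norm_pow]
    have h1 : ‖1 + q i n‖ = 1 := by
      have h2 : ‖(1 : L)‖ ≠ ‖q i n‖ := by
        rw [norm_one]; exact (hN0 n hn i).2.ne'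
      rw [IsUltrametricDist.norm_add_eq_max_of_norm_ne_norm h2, norm_one]
      exact max_eq_left (hN0 n hn i).2.le
    rw [h1, mul_one]
  -- closed form for the norms
  let A : ι → ℝ := fun i => -Real.log ‖a i‖ / (d - 1)
  let lam0 : ι → ℝ := fun i => (Real.log ‖x i N0‖ - A i) / (d : ℝ) ^ N0
  have hA : ∀ i, Real.log ‖a i‖ = -(A i * (d - 1)) := by
    intro i
    have : (d : ℝ) - 1 ≠ 0 := by linarith
    simp only [A]
    field_simp
  have hlog : ∀ i n, N0 ≤ n → Real.log ‖x i n‖ = A i + lam0 i * (d : ℝ) ^ n := by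
    intro i n hn
    induction n, hn using Nat.le_induction with
    | base =>
      simp only [lam0]
      rw [div_mul_cancel₀ _ (pow_pos hd0 _).ne']
      ring
    | succ n hn ih =>
      rw [hxnorm i n hn, Real.log_mul (norm_ne_zero_iff.mpr (ha i))
        (pow_ne_zero _ (norm_ne_zero_iff.mpr (hN0 n hn i).1)), Real.log_pow, ih, hA i, pow_succ]
      ring
  have hnormx : ∀ i n, N0 ≤ n → ‖x i n‖ = Real.exp (A i) * Real.exp (lam0 i * (d : ℝ) ^ n) := by
    intro i n hn
    rw [← Real.exp_add, ← hlog i n hn, Real.exp_log (norm_pos_iff.mpr (hN0 n hn i).1)]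
  -- the gap
  have hgap : ∀ i, ∀ K ∈ (g i).support, wt lam0 (zexp K - dei d i) < 0 := by
    intro i K hK
    by_contra hcon
    push Not at hcon
    have h1 : ∀ᶠ n in atTop, ‖∏ j, x j n ^ K j‖ / ‖x i n‖ ^ d =
        Real.exp (wt A (zexp K - dei d i)) * Real.exp (wt lam0 (zexp K - dei d i) * (d : ℝ) ^ n) := by
      filter_upwards [eventually_ge_atTop N0] with n hn
      have h2 : ‖∏ j, x j n ^ K j‖ / ‖x i n‖ ^ d =
          Real.exp ((wt A (zexp K) - wt A (dei d i)) +
            (wt lam0 (zexp K) - wt lam0 (dei d i)) * (d : ℝ) ^ n) := by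
        rw [wt_dei, wt_dei, norm_prod, div_eq_iff (pow_ne_zero _ (norm_ne_zero_iff.mpr
          (hN0 n hn i).1)), hnormx i n hn, ← Real.exp_add, ← Real.exp_nat_mul, ← Real.exp_add]
        have h3 : ∀ j ∈ (Finset.univ : Finset ι), ‖x j n ^ K j‖ =
            Real.exp (K j * (A j + lam0 j * (d : ℝ) ^ n)) := by
          intro j _
          rw [norm_pow, hnormx j n hn, ← Real.exp_add, ← Real.exp_nat_mul]
        rw [Finset.prod_congr rfl h3, ← Real.exp_sum]
        congr 1
        unfold wt zexp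
        push_cast
        have e1 : ∀ j ∈ (Finset.univ : Finset ι), (K j : ℝ) * (A j + lam0 j * (d : ℝ) ^ n) =
            K j * A j + (K j * lam0 j) * (d : ℝ) ^ n := fun j _ => by ring
        rw [Finset.sum_congr rfl e1, Finset.sum_add_distrib, ← Finset.sum_mul]
        ring
      rw [h2, ← wt_sub, ← wt_sub, Real.exp_add]
    have h3 := (H2 i K hK).congr' h1
    have h4 : ∀ᶠ n in atTop, Real.exp (wt A (zexp K - dei d i)) ≤
        Real.exp (wt A (zexp K - dei d i)) * Real.exp (wt lam0 (zexp K - dei d i) * (d : ℝ) ^ n) := by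
      refine Eventually.of_forall fun n => ?_
      have : 1 ≤ Real.exp (wt lam0 (zexp K - dei d i) * (d : ℝ) ^ n) :=
        Real.one_le_exp (mul_nonneg hcon (by positivity))
      nlinarith [Real.exp_pos (wt A (zexp K - dei d i))]
    have h5 := ge_of_tendsto h3 h4
    exact absurd h5 (not_le.mpr (Real.exp_pos _))
  obtain ⟨γ, hγ0, hγ⟩ : ∃ γ : ℝ, 0 < γ ∧ ∀ i, ∀ K ∈ (g i).support,
      wt lam0 (zexp K - dei d i) ≤ -γ := by
    let T : Finset (ι × (ι →₀ ℕ)) := Finset.univ.biUnion fun i =>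
      (g i).support.image fun K => (i, K)
    have hT : ∀ i, ∀ K ∈ (g i).support, (i, K) ∈ T := fun i K hK =>
      Finset.mem_biUnion.mpr ⟨i, Finset.mem_univ _, Finset.mem_image_of_mem _ hK⟩
    have hT' : ∀ t ∈ T, wt lam0 (zexp t.2 - dei d t.1) < 0 := by
      intro t ht
      obtain ⟨i, _, hi⟩ := Finset.mem_biUnion.mp ht
      obtain ⟨K, hK, rfl⟩ := Finset.mem_image.mp hi
      exact hgap i K hK
    rcases T.eq_empty_or_nonempty with h | h
    · refine ⟨1, one_pos, fun i K hK => ?_⟩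
      have := hT i K hK
      rw [h] at this
      exact absurd this (Finset.notMem_empty _)
    · obtain ⟨t, ht, hmax⟩ := T.exists_max_image (fun t => wt lam0 (zexp t.2 - dei d t.1)) h
      refine ⟨-wt lam0 (zexp t.2 - dei d t.1), neg_pos.mpr (hT' t ht), fun i K hK => ?_⟩
      rw [neg_neg]
      exact hmax (i, K) (hT i K hK)
  -- `q = O(exp (-γ d^n))`
  have hqF : ∀ i, q i ∈ Fsub L d (-γ) := by
    intro i
    rw [mem_Fsub]
    have : q i = fun n => ∑ K ∈ (g i).support,
      ((a i)⁻¹ * (g i).coeff K) * ((∏ j, x j n ^ K j) / x i n ^ d) := funext fun n => hqsum i n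
    rw [this]
    refine IsBigO.fun_sum fun K hK => IsBigO.const_mul_left ?_ _
    refine IsBigO.of_bound (Real.exp (wt A (zexp K - dei d i))) ?_
    filter_upwards [eventually_ge_atTop N0] with n hn
    have h2 : ‖(∏ j, x j n ^ K j) / x i n ^ d‖ =
        Real.exp ((wt A (zexp K) - wt A (dei d i)) +
          (wt lam0 (zexp K) - wt lam0 (dei d i)) * (d : ℝ) ^ n) := by
      rw [norm_div, norm_pow, wt_dei, wt_dei, norm_prod,
        div_eq_iff (pow_ne_zero _ (norm_ne_zero_iff.mpr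
        (hN0 n hn i).1)), hnormx i n hn, ← Real.exp_add, ← Real.exp_nat_mul, ← Real.exp_add]
      have h3 : ∀ j ∈ (Finset.univ : Finset ι), ‖x j n ^ K j‖ =
          Real.exp (K j * (A j + lam0 j * (d : ℝ) ^ n)) := by
        intro j _
        rw [norm_pow, hnormx j n hn, ← Real.exp_add, ← Real.exp_nat_mul]
      rw [Finset.prod_congr rfl h3, ← Real.exp_sum]
      congr 1
      unfold wt zexp
      push_cast
      have e1 : ∀ j ∈ (Finset.univ : Finset ι), (K j : ℝ) * (A j + lam0 j * (d : ℝ) ^ n) =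
          K j * A j + (K j * lam0 j) * (d : ℝ) ^ n := fun j _ => by ring
      rw [Finset.sum_congr rfl e1, Finset.sum_add_distrib, ← Finset.sum_mul]
      ring
    rw [h2, ← wt_sub, ← wt_sub, Real.exp_add, Real.norm_eq_abs, abs_of_pos (Real.exp_pos _)]
    refine mul_le_mul_of_nonneg_left ?_ (Real.exp_pos _).le
    exact Real.exp_le_exp.mpr (mul_le_mul_of_nonneg_right (hγ i K hK) (by positivity))
  -- the roots
  have hroot : ∀ i, ∃ (N : ℕ) (z : ℕ → L), z - 1 ∈ Fsub L d (-γ) ∧ (∀ n, N ≤ n → z n ≠ 0) ∧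
      ∀ n, N ≤ n → z n ^ d = (1 + q i) n * z (n + 1) := by
    intro i
    refine exists_root p hd (1 + q i) hγ0 ?_
    rw [add_sub_cancel_left]
    exact hqF i
  choose Ni z hz1 hz0 hz using hroot
  -- `‖z‖ = 1` eventually
  have hznorm : ∀ i, ∀ᶠ n in atTop, ‖z i n‖ = 1 := by
    intro i
    have h1 : Tendsto (fun n => z i n - 1) atTop (𝓝 0) := by
      refine IsBigO.trans_tendsto (mem_Fsub.mp (hz1 i)) ?_
      have := tendsto_exp_mul hd one_pos hγ0
      simpa using this
    have h2 := h1.norm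
    rw [norm_zero] at h2
    filter_upwards [h2.eventually (gt_mem_nhds one_pos)] with n hn
    have h3 : z i n = 1 + (z i n - 1) := by ring
    have h4 : ‖(1 : L)‖ ≠ ‖z i n - 1‖ := by rw [norm_one]; exact hn.ne'
    rw [h3, IsUltrametricDist.norm_add_eq_max_of_norm_ne_norm h4, norm_one]
    exact max_eq_left hn.le
  have hevall : ∀ᶠ n in atTop, ∀ i, ‖z i n‖ = 1 ∧ Ni i ≤ n ∧ N0 ≤ n := by
    rw [eventually_all]
    intro i
    exact (hznorm i).and ((eventually_ge_atTop _).and (eventually_ge_atTop _))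
  obtain ⟨N, hN⟩ := Filter.eventually_atTop.mp hevall
  let w : ι → ℕ → L := fun i n => z i (n + N) * x i (n + N)
  let y : ι → ℕ → L := fun i n => (z i (n + N))⁻¹
  have hNle : ∀ n, N ≤ n + N := fun n => Nat.le_add_left _ _
  have hx0 : ∀ i n, x i (n + N) ≠ 0 := fun i n => (hN0 _ (hN _ (hNle n) i).2.2 i).1
  have hzne : ∀ i n, z i (n + N) ≠ 0 := fun i n => hz0 i _ (hN _ (hNle n) i).2.1
  have hxwy : ∀ i n, x i (n + N) = w i n * y i n := by
    intro i n
    have := hzne i n
    simp only [w, y]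
    field_simp
  have hwrec : ∀ i n, w i (n + 1) = a i * w i n ^ d := by
    intro i n
    simp only [w]
    have e : n + 1 + N = n + N + 1 := by ring
    rw [e, mul_pow, hz i (n + N) (hN _ (hNle n) i).2.1, hxq i (n + N) (hN _ (hNle n) i).2.2]
    simp only [Pi.add_apply, Pi.one_apply]
    ring
  have hw0 : ∀ i n, w i n ≠ 0 := fun i n => mul_ne_zero (hzne i n) (hx0 i n)
  have hdN : (1 : ℝ) ≤ (d : ℝ) ^ N := one_le_pow₀ hd1.le
  refine ⟨N, w, y, fun i => lam0 i * (d : ℝ) ^ N, A, γ * (d : ℝ) ^ N, by positivity,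
    hw0, hwrec, ?_, ?_, ?_, ?_, hxwy⟩
  · intro i n
    simp only [w]
    rw [norm_mul, (hN _ (hNle n) i).1, one_mul, hnormx i _ (hN _ (hNle n) i).2.2]
    congr 2
    rw [pow_add]; ring
  · intro i K hK
    have h1 := hγ i K hK
    have h2 : wt (fun i => lam0 i * (d : ℝ) ^ N) (zexp K - dei d i) =
        wt lam0 (zexp K - dei d i) * (d : ℝ) ^ N := by
      unfold wt
      rw [Finset.sum_mul]
      exact Finset.sum_congr rfl fun j _ => by ring
    rw [h2]
    nlinarith [pow_pos hd0 N]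
  · intro i n
    have h1 : y i (n + 1) = x i (n + 1 + N) / w i (n + 1) := by
      rw [hxwy i (n + 1)]
      have := hw0 i (n + 1)
      field_simp
    have e : n + 1 + N = n + N + 1 := by ring
    have h2 : (fun j => x j (n + N)) = fun j => w j n * y j n := funext fun j => hxwy j n
    have h3 := hw0 i n
    have h4 := ha i
    rw [h1, e, hx i (n + N), h2, hwrec i n, hxwy i n, mul_pow, add_div]
    congr 1
    field_simp
  · intro i
    have h1 : (fun n => z i (n + N) - 1) ∈ Fsub L d (-(γ * (d : ℝ) ^ N)) := by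
      have := mem_Fsub.mp (hz1 i)
      have h2 := this.comp_tendsto (tendsto_add_atTop_nat N)
      rw [mem_Fsub]
      refine h2.congr_right fun n => ?_
      simp only [Function.comp]
      congr 1
      rw [pow_add]; ring
    rw [mem_Fsub] at h1 ⊢
    refine IsBigO.trans ?_ h1
    refine IsBigO.of_bound 1 (Eventually.of_forall fun n => ?_)
    rw [Pi.sub_apply, Pi.one_apply, one_mul]
    simp only [y]
    have h3 := hzne i n
    have h4 : (z i (n + N))⁻¹ - 1 = -(z i (n + N) - 1) * (z i (n + N))⁻¹ := by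
      field_simp
      ring
    rw [h4, norm_mul, norm_neg, norm_inv, (hN _ (hNle n) i).1, inv_one, mul_one]

end

end Pool.Agent.Helper56.DML
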