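import Mathlib
import Pool.Agent.Helper56.DML.Exp

/-!
# Liouville type lower bound along an orbit
-/

set_option autoImplicit false

open Filter Topology

namespace Pool.Agent.Helper56.DML

section padic

variable (p : ℕ) [Fact p.Prime] (L : Type*) [NontriviallyNormedField L] [NormedAlgebra ℚ_[p] L]

lemma natCast_lower (n : ℕ) (hn : n ≠ 0) : (n : ℝ)⁻¹ ≤ ‖(n : ℚ_[p])‖ := by
  have h1 : ‖(n : ℚ_[p])‖ = ((p : ℝ) ^ (padicValNat p n))⁻¹ := by
    rw [Padic.norm_eq_zpow_neg_valuation (Nat.cast_ne_zero.mpr hn)]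
    simp
  rw [h1]
  have h2 : p ^ padicValNat p n ≤ n := Nat.le_of_dvd (Nat.pos_of_ne_zero hn) pow_padicValNat_dvd
  have h3 : (0 : ℝ) < (p : ℝ) ^ (padicValNat p n) := by
    have : 0 < p := (Fact.out : p.Prime).pos
    positivity
  exact inv_anti₀ h3 (by exact_mod_cast h2)

include p in
lemma intCast_lower (m : ℤ) (hm : m ≠ 0) : (|(m : ℝ)|)⁻¹ ≤ ‖(m : L)‖ := by
  rw [norm_intCast_L p L]
  have h1 : ‖(m : ℚ_[p])‖ = ‖((m.natAbs : ℕ) : ℚ_[p])‖ := by
    rcases Int.natAbs_eq m with h | h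
    · conv_lhs => rw [h]
      simp
    · conv_lhs => rw [h]
      simp
  rw [h1]
  have h2 := natCast_lower p m.natAbs (Int.natAbs_ne_zero.mpr hm)
  have h3 : ((m.natAbs : ℕ) : ℝ) = |(m : ℝ)| := by
    rw [← Int.cast_natCast, Int.natCast_natAbs, Int.cast_abs]
  rwa [h3] at h2

include p in
lemma norm_intCast_le_one_L' (m : ℤ) : ‖(m : L)‖ ≤ 1 := by
  rw [norm_intCast_L p L]
  exact Padic.norm_int_le_one m

include p in
/-- Integral elements have norm `≤ 1`. -/
lemma norm_le_one_of_isIntegral {y : L} (hy : IsIntegral ℤ y) : ‖y‖ ≤ 1 := by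
  have hultra := ultra_L p L
  by_contra hcon
  push Not at hcon
  obtain ⟨q, hq, hq0⟩ := hy
  rw [← Polynomial.aeval_def, Polynomial.aeval_eq_sum_range, Finset.sum_range_succ,
    hq.coeff_natDegree, one_smul] at hq0
  have h1 : ‖∑ i ∈ Finset.range q.natDegree, q.coeff i • y ^ i‖ < ‖y ^ q.natDegree‖ := by
    rcases Nat.eq_zero_or_pos q.natDegree with h | h
    · rw [h]; simp
    · refine lt_of_le_of_lt (b := ‖y‖ ^ (q.natDegree - 1)) ?_ ?_
      · refine IsUltrametricDist.norm_sum_le_of_forall_le_of_nonneg (by positivity) fun i hi => ?_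
        rw [zsmul_eq_mul, norm_mul, norm_pow]
        calc ‖((q.coeff i : ℤ) : L)‖ * ‖y‖ ^ i ≤ 1 * ‖y‖ ^ i :=
              mul_le_mul_of_nonneg_right (norm_intCast_le_one_L' p L _) (by positivity)
          _ = ‖y‖ ^ i := one_mul _
          _ ≤ ‖y‖ ^ (q.natDegree - 1) := pow_le_pow_right₀ hcon.le (by
              have := Finset.mem_range.mp hi
              omega)
      · rw [norm_pow]
        exact pow_lt_pow_right₀ hcon (by omega)
  have h2 : ∑ i ∈ Finset.range q.natDegree, q.coeff i • y ^ i = -y ^ q.natDegree :=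
    eq_neg_of_add_eq_zero_left hq0
  rw [h2, norm_neg] at h1
  exact lt_irrefl _ h1

include p in
/-- Liouville bound for a nonzero integral element of a number field. -/
lemma liouville {K : Type*} [Field K] [NumberField K] (φ : K →+* L) {Y : K}
    (hY : IsIntegral ℤ Y) (hY0 : Y ≠ 0) {B : ℝ} (hB1 : 1 ≤ B) (hB : ∀ τ : K →+* ℂ, ‖τ Y‖ ≤ B) :
    (B ^ Module.finrank ℚ K *
      (Module.finrank ℚ K).choose (Module.finrank ℚ K / 2))⁻¹ ≤ ‖φ Y‖ := by
  have hultra := ultra_L p L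
  set q := minpoly ℤ Y with hq
  have hmap : minpoly ℚ Y = q.map (algebraMap ℤ ℚ) :=
    minpoly.isIntegrallyClosed_eq_field_fractions' ℚ hY
  have hc0 : q.coeff 0 ≠ 0 := by
    intro h
    have h1 : (minpoly ℚ Y).coeff 0 = 0 := by
      rw [hmap, Polynomial.coeff_map, h, map_zero]
    have h2 := (minpoly.coeff_zero_eq_zero (Algebra.IsIntegral.isIntegral (R := ℚ) Y)).mp h1
    exact hY0 h2
  have hbd := NumberField.Embeddings.coeff_bdd_of_norm_le (A := ℂ) hB 0
  rw [hmap, Polynomial.coeff_map, max_eq_left hB1] at hbd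
  have hbd' : |(q.coeff 0 : ℝ)| ≤ B ^ Module.finrank ℚ K *
      (Module.finrank ℚ K).choose (Module.finrank ℚ K / 2) := by
    refine le_trans (le_of_eq ?_) hbd
    simp [Int.norm_eq_abs]
  have hφY : IsIntegral ℤ (φ Y) := hY.map φ.toIntAlgHom
  have hle1 : ‖φ Y‖ ≤ 1 := norm_le_one_of_isIntegral p L hφY
  -- the relation
  have hrel : Polynomial.aeval (φ Y) q = 0 := by
    have h1 : Polynomial.aeval Y q = 0 := minpoly.aeval ℤ Y
    have h2 : Polynomial.aeval (φ.toIntAlgHom Y) q = φ.toIntAlgHom (Polynomial.aeval Y q) :=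
      Polynomial.aeval_algHom_apply _ _ _
    rw [h1, map_zero] at h2
    exact h2
  have hle : ‖((q.coeff 0 : ℤ) : L)‖ ≤ ‖φ Y‖ := by
    rw [Polynomial.aeval_eq_sum_range, Finset.sum_range_succ', pow_zero, zsmul_eq_mul,
      mul_one] at hrel
    have h1 : ((q.coeff 0 : ℤ) : L) =
        -∑ i ∈ Finset.range q.natDegree, q.coeff (i + 1) • φ Y ^ (i + 1) :=
      eq_neg_of_add_eq_zero_right hrel
    rw [h1, norm_neg]
    refine IsUltrametricDist.norm_sum_le_of_forall_le_of_nonneg (norm_nonneg _) fun i _ => ?_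
    rw [zsmul_eq_mul, norm_mul, norm_pow, pow_succ]
    calc ‖((q.coeff (i + 1) : ℤ) : L)‖ * (‖φ Y‖ ^ i * ‖φ Y‖) ≤ 1 * (1 * ‖φ Y‖) := by
          refine mul_le_mul (norm_intCast_le_one_L' p L _) ?_ (by positivity) zero_le_one
          exact mul_le_mul_of_nonneg_right (pow_le_one₀ (norm_nonneg _) hle1) (norm_nonneg _)
      _ = ‖φ Y‖ := by ring
  refine le_trans ?_ hle
  refine le_trans ?_ (intCast_lower p L _ hc0)
  exact inv_anti₀ (abs_pos.mpr (by exact_mod_cast hc0)) hbd'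

end padic

section orbit

variable {K : Type*} [Field K] {ι : Type*} [Fintype ι]

/-- Clearing denominators in a polynomial evaluation. -/
lemma isIntegral_eval {P : MvPolynomial ι K} {D M : ℤ} {e : ℕ} (he : P.totalDegree ≤ e)
    (hD : ∀ J ∈ P.support, IsIntegral ℤ ((D : K) * P.coeff J)) {v : ι → K}
    (hv : ∀ i, IsIntegral ℤ ((M : K) * v i)) :
    IsIntegral ℤ ((D : K) * (M : K) ^ e * MvPolynomial.eval v P) := by
  rw [MvPolynomial.eval_eq', Finset.mul_sum]
  refine IsIntegral.sum _ fun J hJ => ?_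
  have h1 : ∑ j, J j ≤ e := by
    have := MvPolynomial.le_totalDegree hJ
    rw [Finsupp.sum_fintype _ _ (fun _ => rfl)] at this
    exact this.trans he
  have h2 : (D : K) * (M : K) ^ e * (P.coeff J * ∏ j, v j ^ J j) =
      ((D : K) * P.coeff J) * (M : K) ^ (e - ∑ j, J j) * ∏ j, ((M : K) * v j) ^ J j := by
    have h3 : (M : K) ^ e = (M : K) ^ (e - ∑ j, J j) * ∏ j, (M : K) ^ J j := by
      rw [Finset.prod_pow_eq_pow_sum, ← pow_add, Nat.sub_add_cancel h1]
    simp_rw [mul_pow]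
    rw [Finset.prod_mul_distrib, h3]
    ring
  rw [h2]
  refine IsIntegral.mul (IsIntegral.mul (hD J hJ) ?_) ?_
  · exact IsIntegral.pow (isIntegral_algebraMap (x := M)) _
  · exact IsIntegral.prod _ fun j _ => (hv j).pow _

/-- Archimedean bound for a polynomial evaluation. -/
lemma norm_eval_le (τ : K →+* ℂ) {P : MvPolynomial ι K} {e : ℕ} (he : P.totalDegree ≤ e)
    {v : ι → K} {H : ℝ} (hH : 1 ≤ H) (hv : ∀ i, ‖τ (v i)‖ ≤ H) :
    ‖τ (MvPolynomial.eval v P)‖ ≤ (∑ J ∈ P.support, ‖τ (P.coeff J)‖) * H ^ e := by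
  rw [MvPolynomial.eval_eq', map_sum, Finset.sum_mul]
  refine (norm_sum_le _ _).trans (Finset.sum_le_sum fun J hJ => ?_)
  rw [map_mul, norm_mul, map_prod, norm_prod]
  refine mul_le_mul_of_nonneg_left ?_ (norm_nonneg _)
  have h1 : ∑ j, J j ≤ e := by
    have := MvPolynomial.le_totalDegree hJ
    rw [Finsupp.sum_fintype _ _ (fun _ => rfl)] at this
    exact this.trans he
  calc ∏ j, ‖τ (v j ^ J j)‖ ≤ ∏ j, H ^ J j := by
        refine Finset.prod_le_prod (fun j _ => norm_nonneg _) fun j _ => ?_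
        rw [map_pow, norm_pow]
        exact pow_le_pow_left₀ (norm_nonneg _) (hv j) _
    _ = H ^ ∑ j, J j := Finset.prod_pow_eq_pow_sum _ _ _
    _ ≤ H ^ e := pow_le_pow_right₀ hH h1

variable [NumberField K]

/-- A common denominator. -/
lemma exists_den (s : Finset K) : ∃ D : ℤ, D ≠ 0 ∧ ∀ c ∈ s, IsIntegral ℤ ((D : K) * c) := by
  obtain ⟨D, hD, h⟩ := exists_integral_multiples (A := ℤ) (K := ℚ) (L := K) s
  refine ⟨D, hD, fun c hc => ?_⟩
  have := h c hc
  rwa [zsmul_eq_mul] at this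

variable (p : ℕ) [Fact p.Prime] (L : Type*) [NontriviallyNormedField L] [NormedAlgebra ℚ_[p] L]

include p in
/-- **Lower bound along an orbit.** -/
lemma orbit_lower (φ : K →+* L) {d : ℕ} (hd : 2 ≤ d) (Φ : ι → MvPolynomial ι K)
    (hΦ : ∀ i, (Φ i).totalDegree ≤ d) (x : ι → ℕ → K)
    (hx : ∀ i n, x i (n + 1) = MvPolynomial.eval (fun j => x j n) (Φ i))
    (P : MvPolynomial ι K) :
    ∃ c M : ℝ, 0 < c ∧ ∀ n, MvPolynomial.eval (fun j => x j n) P ≠ 0 →
      c * Real.exp (-M * (d : ℝ) ^ n) ≤ ‖φ (MvPolynomial.eval (fun j => x j n) P)‖ := by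
  classical
  -- denominators
  obtain ⟨D, hD0, hD⟩ := exists_den (K := K)
    ((Finset.univ.image fun i => x i 0) ∪ (Finset.univ.biUnion fun i =>
      (Φ i).support.image fun J => (Φ i).coeff J) ∪ P.support.image fun J => P.coeff J)
  have hDx : ∀ i, IsIntegral ℤ ((D : K) * x i 0) := fun i => hD _ (by
    refine Finset.mem_union_left _ (Finset.mem_union_left _ ?_)
    exact Finset.mem_image_of_mem _ (Finset.mem_univ i))
  have hDΦ : ∀ i, ∀ J ∈ (Φ i).support, IsIntegral ℤ ((D : K) * (Φ i).coeff J) := fun i J hJ =>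
    hD _ (by
      refine Finset.mem_union_left _ (Finset.mem_union_right _ ?_)
      refine Finset.mem_biUnion.mpr ⟨i, Finset.mem_univ _, ?_⟩
      exact Finset.mem_image_of_mem (fun J => (Φ i).coeff J) hJ)
  have hDP : ∀ J ∈ P.support, IsIntegral ℤ ((D : K) * P.coeff J) := fun J hJ =>
    hD _ (Finset.mem_union_right _ (Finset.mem_image_of_mem (fun J => P.coeff J) hJ))
  obtain ⟨M, hM0, hMs⟩ : ∃ M : ℕ → ℤ, M 0 = D ∧ ∀ n, M (n + 1) = D * M n ^ d :=
    ⟨fun n => Nat.rec D (fun _ m => D * m ^ d) n, rfl, fun n => rfl⟩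
  have hint : ∀ n i, IsIntegral ℤ ((M n : K) * x i n) := by
    intro n
    induction n with
    | zero => intro i; rw [hM0]; exact hDx i
    | succ n ih =>
      intro i
      rw [hMs, hx]
      push_cast
      exact isIntegral_eval (hΦ i) (hDΦ i) ih
  have hMne : ∀ n, M n ≠ 0 := by
    intro n
    induction n with
    | zero => rw [hM0]; exact hD0
    | succ n ih => rw [hMs]; exact mul_ne_zero hD0 (pow_ne_zero _ ih)
  -- constants
  let CΦ : ℝ := ∑ τ : K →+* ℂ, ∑ i, ∑ J ∈ (Φ i).support, ‖τ ((Φ i).coeff J)‖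
  let C : ℝ := 1 + |(D : ℝ)| + CΦ
  have hCΦ0 : 0 ≤ CΦ := Finset.sum_nonneg fun τ _ => Finset.sum_nonneg fun i _ =>
    Finset.sum_nonneg fun J _ => norm_nonneg _
  have hC1 : 1 ≤ C := by
    have := abs_nonneg (D : ℝ)
    simp only [C]; linarith
  have hCD : |(D : ℝ)| ≤ C := by simp only [C]; linarith
  have hCi : ∀ (τ : K →+* ℂ) i, ∑ J ∈ (Φ i).support, ‖τ ((Φ i).coeff J)‖ ≤ C := by
    intro τ i
    have h1 : ∑ J ∈ (Φ i).support, ‖τ ((Φ i).coeff J)‖ ≤
        ∑ i, ∑ J ∈ (Φ i).support, ‖τ ((Φ i).coeff J)‖ :=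
      Finset.single_le_sum (f := fun i => ∑ J ∈ (Φ i).support, ‖τ ((Φ i).coeff J)‖)
        (fun i _ => Finset.sum_nonneg fun J _ => norm_nonneg _) (Finset.mem_univ i)
    have h2 : ∑ i, ∑ J ∈ (Φ i).support, ‖τ ((Φ i).coeff J)‖ ≤ CΦ :=
      Finset.single_le_sum (f := fun τ : K →+* ℂ => ∑ i, ∑ J ∈ (Φ i).support,
        ‖τ ((Φ i).coeff J)‖) (fun τ _ => Finset.sum_nonneg fun i _ =>
        Finset.sum_nonneg fun J _ => norm_nonneg _) (Finset.mem_univ τ)
    have := abs_nonneg (D : ℝ)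
    simp only [C]; linarith
  let B0 : ℝ := 1 + |(D : ℝ)| + ∑ τ : K →+* ℂ, ∑ i, ‖τ (x i 0)‖
  have hB0s : 0 ≤ ∑ τ : K →+* ℂ, ∑ i, ‖τ (x i 0)‖ :=
    Finset.sum_nonneg fun τ _ => Finset.sum_nonneg fun i _ => norm_nonneg _
  have hB01 : 1 ≤ B0 := by
    have := abs_nonneg (D : ℝ)
    simp only [B0]; linarith
  have hB0D : |(D : ℝ)| ≤ B0 := by simp only [B0]; linarith
  have hB0x : ∀ (τ : K →+* ℂ) i, ‖τ (x i 0)‖ ≤ B0 := by
    intro τ i
    have h1 : ‖τ (x i 0)‖ ≤ ∑ i, ‖τ (x i 0)‖ :=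
      Finset.single_le_sum (f := fun i => ‖τ (x i 0)‖) (fun i _ => norm_nonneg _)
        (Finset.mem_univ i)
    have h2 : ∑ i, ‖τ (x i 0)‖ ≤ ∑ τ : K →+* ℂ, ∑ i, ‖τ (x i 0)‖ :=
      Finset.single_le_sum (f := fun τ : K →+* ℂ => ∑ i, ‖τ (x i 0)‖)
        (fun τ _ => Finset.sum_nonneg fun i _ => norm_nonneg _) (Finset.mem_univ τ)
    have := abs_nonneg (D : ℝ)
    simp only [B0]; linarith
  -- the majorant
  obtain ⟨B, hBz, hBs⟩ : ∃ B : ℕ → ℝ, B 0 = B0 ∧ ∀ n, B (n + 1) = C * B n ^ d :=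
    ⟨fun n => Nat.rec B0 (fun _ b => C * b ^ d) n, rfl, fun n => rfl⟩
  have hB1 : ∀ n, 1 ≤ B n := by
    intro n
    induction n with
    | zero => rw [hBz]; exact hB01
    | succ n ih => rw [hBs]; exact one_le_mul_of_one_le_of_one_le hC1 (one_le_pow₀ ih)
  have hBx : ∀ n (τ : K →+* ℂ) i, ‖τ (x i n)‖ ≤ B n := by
    intro n
    induction n with
    | zero => intro τ i; rw [hBz]; exact hB0x τ i
    | succ n ih =>
      intro τ i
      rw [hx, hBs]
      refine (norm_eval_le τ (hΦ i) (hB1 n) (ih τ)).trans ?_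
      exact mul_le_mul_of_nonneg_right (hCi τ i) (by have := hB1 n; positivity)
  have hBM : ∀ n, |(M n : ℝ)| ≤ B n := by
    intro n
    induction n with
    | zero => rw [hBz, hM0]; exact hB0D
    | succ n ih =>
      rw [hMs, hBs]
      push_cast
      rw [abs_mul, abs_pow]
      exact mul_le_mul hCD (pow_le_pow_left₀ (abs_nonneg _) ih _) (by positivity) (by linarith)
  have hBexp : ∀ n, B n ≤ Real.exp (Real.log (C * B0) * (d : ℝ) ^ n) := by
    have h1 : ∀ n, C * B n ≤ (C * B0) ^ (d ^ n) := by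
      intro n
      induction n with
      | zero => simp [hBz]
      | succ n ih =>
        have h2 : 0 ≤ C * B n := by have := hB1 n; positivity
        calc C * B (n + 1) = C ^ 2 * B n ^ d := by rw [hBs]; ring
          _ ≤ C ^ d * B n ^ d := by
              refine mul_le_mul_of_nonneg_right (pow_le_pow_right₀ hC1 hd) ?_
              have := hB1 n; positivity
          _ = (C * B n) ^ d := by rw [mul_pow]
          _ ≤ ((C * B0) ^ (d ^ n)) ^ d := pow_le_pow_left₀ h2 ih _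
          _ = (C * B0) ^ (d ^ (n + 1)) := by rw [← pow_mul, pow_succ]
    intro n
    have h2 : B n ≤ C * B n := by
      have := hB1 n
      nlinarith
    refine h2.trans ((h1 n).trans (le_of_eq ?_))
    have h3 : 0 < C * B0 := by positivity
    have h4 : (d : ℝ) ^ n = ((d ^ n : ℕ) : ℝ) := by push_cast; ring
    rw [h4, mul_comm (Real.log _), Real.exp_nat_mul, Real.exp_log h3]
  -- the polynomial
  set e := P.totalDegree with he
  let CP : ℝ := 1 + ∑ τ : K →+* ℂ, ∑ J ∈ P.support, ‖τ (P.coeff J)‖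
  have hCP1 : 1 ≤ CP := by
    have : 0 ≤ ∑ τ : K →+* ℂ, ∑ J ∈ P.support, ‖τ (P.coeff J)‖ :=
      Finset.sum_nonneg fun τ _ => Finset.sum_nonneg fun J _ => norm_nonneg _
    simp only [CP]; linarith
  have hCPτ : ∀ τ : K →+* ℂ, ∑ J ∈ P.support, ‖τ (P.coeff J)‖ ≤ CP := by
    intro τ
    have h1 := Finset.single_le_sum (f := fun τ : K →+* ℂ => ∑ J ∈ P.support, ‖τ (P.coeff J)‖)
      (fun τ _ => Finset.sum_nonneg fun J _ => norm_nonneg _) (Finset.mem_univ τ)
    simp only [CP]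
    linarith
  set f := Module.finrank ℚ K with hf
  set β := Real.log (C * B0) with hβ
  let G : ℝ := (C * CP) ^ f * (f.choose (f / 2))
  have hGch : (0 : ℝ) < (f.choose (f / 2)) := by
    exact_mod_cast Nat.choose_pos (Nat.div_le_self _ _)
  have hG : 0 < G := by
    have : 0 < C * CP := by positivity
    positivity
  refine ⟨G⁻¹, β * (2 * e) * f, inv_pos.mpr hG, fun n hn => ?_⟩
  set Pn := MvPolynomial.eval (fun j => x j n) P with hPn
  set Y : K := (D : K) * (M n : K) ^ e * Pn with hY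
  have hDK : (D : K) ≠ 0 := Int.cast_ne_zero.mpr hD0
  have hMK : (M n : K) ≠ 0 := Int.cast_ne_zero.mpr (hMne n)
  have hY0 : Y ≠ 0 := mul_ne_zero (mul_ne_zero hDK (pow_ne_zero _ hMK)) hn
  have hYint : IsIntegral ℤ Y := isIntegral_eval le_rfl hDP (hint n)
  have hBn := hB1 n
  have hYB : ∀ τ : K →+* ℂ, ‖τ Y‖ ≤ C * CP * B n ^ (2 * e) := by
    intro τ
    rw [hY, map_mul, map_mul, map_pow, map_intCast, map_intCast, norm_mul, norm_mul, norm_pow,
      Complex.norm_intCast, Complex.norm_intCast]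
    have h1 := norm_eval_le τ (P := P) (e := e) le_rfl (hB1 n) (hBx n τ)
    calc |(D : ℝ)| * |(M n : ℝ)| ^ e * ‖τ Pn‖
        ≤ C * B n ^ e * (CP * B n ^ e) := by
          refine mul_le_mul (mul_le_mul hCD (pow_le_pow_left₀ (abs_nonneg _) (hBM n) _)
            (by positivity) (by linarith)) (h1.trans ?_) (norm_nonneg _) (by positivity)
          exact mul_le_mul_of_nonneg_right (hCPτ τ) (by positivity)
      _ = C * CP * B n ^ (2 * e) := by rw [two_mul, pow_add]; ring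
  have hB1' : 1 ≤ C * CP * B n ^ (2 * e) :=
    one_le_mul_of_one_le_of_one_le (one_le_mul_of_one_le_of_one_le hC1 hCP1) (one_le_pow₀ hBn)
  have hL := liouville p L φ hYint hY0 hB1' hYB
  have hYle : ‖φ Y‖ ≤ ‖φ Pn‖ := by
    rw [hY, map_mul, map_mul, map_pow, map_intCast, map_intCast, norm_mul, norm_mul, norm_pow]
    calc ‖(D : L)‖ * ‖(M n : L)‖ ^ e * ‖φ Pn‖ ≤ 1 * 1 * ‖φ Pn‖ := by
          refine mul_le_mul_of_nonneg_right (mul_le_mul (norm_intCast_le_one_L' p L _)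
            (pow_le_one₀ (norm_nonneg _) (norm_intCast_le_one_L' p L _)) (by positivity)
            zero_le_one) (norm_nonneg _)
      _ = ‖φ Pn‖ := by ring
  refine le_trans ?_ (hL.trans hYle)
  have h1 : G⁻¹ * Real.exp (-(β * (2 * e) * f) * (d : ℝ) ^ n) =
      (G * Real.exp (β * (d : ℝ) ^ n) ^ (2 * e * f))⁻¹ := by
    rw [mul_inv G, ← Real.exp_nat_mul, ← Real.exp_neg]
    congr 2
    push_cast
    ring
  rw [h1]
  refine inv_anti₀ (by positivity) ?_
  calc (C * CP * B n ^ (2 * e)) ^ f * (f.choose (f / 2))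
      = G * B n ^ (2 * e * f) := by
        simp only [G]
        rw [mul_pow, ← pow_mul]
        ring
    _ ≤ G * Real.exp (β * (d : ℝ) ^ n) ^ (2 * e * f) := by
        refine mul_le_mul_of_nonneg_left (pow_le_pow_left₀ (by positivity) (hBexp n) _) hG.le

end orbit

end Pool.Agent.Helper56.DML
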