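import Mathlib
import Pool.Agent.Helper56.DML.Bottcher
import Pool.Agent.Helper56.DML.Liouville

/-!
# Zero sets along wild superattracting orbits are eventually periodic
-/

set_option autoImplicit false

open Filter Topology Asymptotics

namespace Pool.Agent.Helper56.DML

/-- The polynomial self-map of affine space with the given components. -/
noncomputable def selfMap {F : Type*} [Field F] {ι : Type*} (Φ : ι → MvPolynomial ι F)
    (v : ι → F) : ι → F := fun i => MvPolynomial.eval v (Φ i)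

/-- Eventually periodic sets. -/
def EvPer (S : Set ℕ) : Prop := ∃ R : ℕ, 0 < R ∧ ∃ N : ℕ, ∀ n, N ≤ n → (n ∈ S ↔ n + R ∈ S)

lemma EvPer.mul {S : Set ℕ} {R N : ℕ} (h : ∀ n, N ≤ n → (n ∈ S ↔ n + R ∈ S)) (k : ℕ) :
    ∀ n, N ≤ n → (n ∈ S ↔ n + R * k ∈ S) := by
  induction k with
  | zero => intro n _; simp
  | succ k ih =>
    intro n hn
    rw [ih n hn, h (n + R * k) (by omega)]
    have : n + R * k + R = n + R * (k + 1) := by ring
    rw [this]

lemma EvPer.inter {S T : Set ℕ} (hS : EvPer S) (hT : EvPer T) : EvPer (S ∩ T) := by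
  obtain ⟨R, hR, N, h⟩ := hS
  obtain ⟨R', hR', N', h'⟩ := hT
  refine ⟨R * R', Nat.mul_pos hR hR', N + N', fun n hn => ?_⟩
  have h1 := EvPer.mul h R' n (by omega)
  have h2 := EvPer.mul h' R n (by omega)
  rw [mul_comm R' R] at h2
  rw [Set.mem_inter_iff, Set.mem_inter_iff, h1, h2]

lemma EvPer.univ : EvPer Set.univ := ⟨1, one_pos, 0, fun n _ => by simp⟩

lemma EvPer.iInter_finset {κ : Type*} (G : Finset κ) (S : κ → Set ℕ) (h : ∀ k ∈ G, EvPer (S k)) :
    EvPer {n | ∀ k ∈ G, n ∈ S k} := by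
  classical
  induction G using Finset.induction_on with
  | empty => simpa using EvPer.univ
  | insert k G hk ih =>
    have e : {n | ∀ j ∈ insert k G, n ∈ S j} = S k ∩ {n | ∀ j ∈ G, n ∈ S j} := by
      ext n; simp
    rw [e]
    exact (h k (Finset.mem_insert_self _ _)).inter
      (ih fun j hj => h j (Finset.mem_insert_of_mem hj))

lemma EvPer.exists_progressions {S : Set ℕ} (h : EvPer S) :
    ∃ T : Finset (ℕ × ℕ), S = {n | ∃ t ∈ T, ∃ k : ℕ, n = t.1 + t.2 * k} := by
  classical
  obtain ⟨R, hR, N, h⟩ := h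
  refine ⟨((Finset.range N).filter (· ∈ S)).image (fun n => (n, 0)) ∪
    ((Finset.Ico N (N + R)).filter (· ∈ S)).image (fun n => (n, R)), ?_⟩
  ext n
  constructor
  · intro hn
    by_cases hN : n < N
    · refine ⟨(n, 0), Finset.mem_union_left _ (Finset.mem_image_of_mem _
        (Finset.mem_filter.mpr ⟨Finset.mem_range.mpr hN, hn⟩)), 0, by simp⟩
    · have e : n = (N + (n - N) % R) + R * ((n - N) / R) := by
        have := Nat.mod_add_div (n - N) R
        omega
      refine ⟨(N + (n - N) % R, R), Finset.mem_union_right _ (Finset.mem_image_of_mem _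
        (Finset.mem_filter.mpr ⟨Finset.mem_Ico.mpr ⟨by omega, ?_⟩, ?_⟩)), (n - N) / R, e⟩
      · have := Nat.mod_lt (n - N) hR
        omega
      · rw [EvPer.mul h ((n - N) / R) _ (by omega), ← e]
        exact hn
  · rintro ⟨t, ht, k, hk⟩
    rcases Finset.mem_union.mp ht with ht | ht
    · obtain ⟨s, hs, rfl⟩ := Finset.mem_image.mp ht
      rw [hk, zero_mul, add_zero]
      exact (Finset.mem_filter.mp hs).2
    · obtain ⟨s, hs, rfl⟩ := Finset.mem_image.mp ht
      obtain ⟨hs1, hs2⟩ := Finset.mem_filter.mp hs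
      rw [hk]
      exact (EvPer.mul h k s (Finset.mem_Ico.mp hs1).1).mp hs2

section

variable {K : Type*} [Field K] [NumberField K] (p : ℕ) [Fact p.Prime] (L : Type*)
  [NontriviallyNormedField L] [NormedAlgebra ℚ_[p] L] [FiniteDimensional ℚ_[p] L]
  {ι : Type*} [Fintype ι] [DecidableEq ι]

include p in
/-- **Zero sets are eventually periodic.** -/
lemma zero_set_evPer (φ : K →+* L) {d : ℕ} (hd : 2 ≤ d) (hpd : p ∣ d) (Φ : ι → MvPolynomial ι K)
    (hΦ : ∀ i, (Φ i).totalDegree ≤ d) (ha : ∀ i, (Φ i).coeff (Finsupp.single i d) ≠ 0)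
    (x : ι → ℕ → K)
    (hx : ∀ i n, x i (n + 1) = MvPolynomial.eval (fun j => x j n) (Φ i))
    (H1 : ∀ i, ∀ᶠ n in atTop, x i n ≠ 0)
    (H2 : ∀ i, ∀ J ∈ (Φ i).support, J ≠ Finsupp.single i d →
      Tendsto (fun n => ‖φ (∏ j, x j n ^ J j)‖ / ‖φ (x i n)‖ ^ d) atTop (𝓝 0))
    (P : MvPolynomial ι K) : EvPer {n | MvPolynomial.eval (fun j => x j n) P = 0} := by
  have hchar : CharZero L := charZero_of_injective_algebraMap (algebraMap ℚ_[p] L).injective
  -- the data over `L`
  let a : ι → L := fun i => φ ((Φ i).coeff (Finsupp.single i d))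
  let gK : ι → MvPolynomial ι K := fun i =>
    Φ i - MvPolynomial.monomial (Finsupp.single i d) ((Φ i).coeff (Finsupp.single i d))
  let g : ι → MvPolynomial ι L := fun i => MvPolynomial.map φ (gK i)
  have hevalmap : ∀ (Q : MvPolynomial ι K) n,
      MvPolynomial.eval (fun j => φ (x j n)) (MvPolynomial.map φ Q) =
        φ (MvPolynomial.eval (fun j => x j n) Q) := by
    intro Q n
    rw [MvPolynomial.eval_map, ← MvPolynomial.eval₂_id Q,
      MvPolynomial.eval₂_comp_left φ (RingHom.id K) (fun j => x j n) Q, RingHom.comp_id]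
    rfl
  have ha' : ∀ i, a i ≠ 0 := fun i => (map_ne_zero φ).mpr (ha i)
  have hmonoe : ∀ i n, MvPolynomial.eval (fun j => x j n) (MvPolynomial.monomial
      (Finsupp.single i d) ((Φ i).coeff (Finsupp.single i d))) =
      (Φ i).coeff (Finsupp.single i d) * x i n ^ d := by
    intro i n
    rw [MvPolynomial.eval_monomial, Finsupp.prod_single_index]
    exact pow_zero _
  have hxL : ∀ i n, φ (x i (n + 1)) = a i * φ (x i n) ^ d +
      MvPolynomial.eval (fun j => φ (x j n)) (g i) := by
    intro i n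
    simp only [g, gK, a]
    rw [hevalmap, map_sub, map_sub, hmonoe, map_mul, map_pow, hx]
    ring
  have hsupp : ∀ i, ∀ J ∈ (g i).support, J ∈ (Φ i).support ∧ J ≠ Finsupp.single i d := by
    intro i J hJ
    rw [MvPolynomial.mem_support_iff] at hJ
    simp only [g, gK] at hJ
    rw [MvPolynomial.coeff_map, MvPolynomial.coeff_sub, MvPolynomial.coeff_monomial] at hJ
    have hne : Finsupp.single i d ≠ J := by
      intro h
      rw [if_pos h, ← h, sub_self, map_zero] at hJ
      exact hJ rfl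
    refine ⟨?_, hne.symm⟩
    rw [if_neg hne, sub_zero] at hJ
    rw [MvPolynomial.mem_support_iff]
    intro h
    rw [h, map_zero] at hJ
    exact hJ rfl
  obtain ⟨N, w, y, lam, A, γ, hγ, hw0, hwrec, hwnorm, hgw, hyrec, hy1, hxwy⟩ :=
    exists_bottcher p hd (fun i n => φ (x i n)) a g hxL ha'
      (fun i => by
        filter_upwards [H1 i] with n hn
        exact (map_ne_zero φ).mpr hn)
      (fun i J hJ => by
        obtain ⟨h1, h2⟩ := hsupp i J hJ
        refine (H2 i J h1 h2).congr fun n => ?_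
        rw [map_prod]
        simp only [map_pow])
  -- Liouville
  obtain ⟨c, M1, hc, hlow⟩ := orbit_lower p L φ hd Φ hΦ x hx P
  have hd0 : (0 : ℝ) < d := by positivity
  set M1' : ℝ := M1 * (d : ℝ) ^ N with hM1'
  obtain ⟨E, hE⟩ := eval_expansion hd hw0 ha' hwrec hwnorm g hγ hgw hyrec hy1
    (MvPolynomial.map φ P) (M1' + 1)
  obtain ⟨R, hR, hres⟩ := alternative p hd hpd hw0 hwrec hwnorm hE
  set u : ℕ → L := fun n => MvPolynomial.eval (fun j => w j n * y j n) (MvPolynomial.map φ P)
    with hu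
  have huP : ∀ n, u n = φ (MvPolynomial.eval (fun j => x j (n + N)) P) := by
    intro n
    rw [← hevalmap]
    simp only [hu]
    congr 1
    congr 1
    funext j
    exact (hxwy j n).symm
  have hu0 : ∀ n, u n = 0 ↔ MvPolynomial.eval (fun j => x j (n + N)) P = 0 := by
    intro n
    rw [huP n, map_eq_zero]
  have hulow : ∀ n, u n ≠ 0 → c * Real.exp (-M1' * (d : ℝ) ^ n) ≤ ‖u n‖ := by
    intro n hn
    have h1 := hlow (n + N) (fun h => hn ((hu0 n).mpr h))
    rw [← huP n] at h1
    refine le_trans (le_of_eq ?_) h1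
    rw [hM1', pow_add]
    congr 2
    ring
  -- the small case forces vanishing
  have hzero : ∀ F : Filter ℕ, F ≤ atTop →
      (u =O[F] fun n : ℕ => Real.exp (-(M1' + 1) * (d : ℝ) ^ n)) → ∀ᶠ n in F, u n = 0 := by
    intro F hF hO
    obtain ⟨C, hC⟩ := hO.bound
    have h1 := (growth_beats hd one_pos 0 one_pos (C := c) (C' := C) hc).filter_mono hF
    filter_upwards [hC, h1] with n h2 h3
    by_contra hne
    have h4 := hulow n hne
    rw [Real.norm_eq_abs, abs_of_pos (Real.exp_pos _)] at h2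
    rw [one_pow, mul_one] at h3
    have h5 : C * Real.exp (-(M1' + 1) * (d : ℝ) ^ n) =
        (C * Real.exp (-1 * (d : ℝ) ^ n)) * Real.exp (-M1' * (d : ℝ) ^ n) := by
      rw [mul_assoc, ← Real.exp_add]
      congr 2; ring
    rw [h5] at h2
    have h6 := mul_lt_mul_of_pos_right h3 (Real.exp_pos (-M1' * (d : ℝ) ^ n))
    linarith
  have hdich : ∀ res : ℕ, (∀ᶠ n in atTop, n ≡ res [MOD R] → u n = 0) ∨
      (∀ᶠ n in atTop, n ≡ res [MOD R] → u n ≠ 0) := by
    intro res
    rcases hres res with h | h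
    · left
      have := hzero _ inf_le_left h
      rwa [eventually_inf_principal] at this
    · right
      rwa [eventually_inf_principal] at h
  -- periodicity
  have hper : ∀ᶠ n in atTop, ∀ res ∈ Finset.range R, n ≡ res [MOD R] →
      (u n = 0 ↔ u (n + R) = 0) := by
    rw [Filter.eventually_all_finset]
    intro res _
    rcases hdich res with h | h
    · obtain ⟨N', hN'⟩ := Filter.eventually_atTop.mp h
      filter_upwards [eventually_ge_atTop N'] with n hn hmod
      have h1 := hN' n hn hmod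
      have h2 := hN' (n + R) (by omega) (by
        have : n + R ≡ n [MOD R] := by simp [Nat.ModEq]
        exact this.trans hmod)
      simp [h1, h2]
    · obtain ⟨N', hN'⟩ := Filter.eventually_atTop.mp h
      filter_upwards [eventually_ge_atTop N'] with n hn hmod
      have h1 := hN' n hn hmod
      have h2 := hN' (n + R) (by omega) (by
        have : n + R ≡ n [MOD R] := by simp [Nat.ModEq]
        exact this.trans hmod)
      simp [h1, h2]
  obtain ⟨N', hN'⟩ := Filter.eventually_atTop.mp hper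
  refine ⟨R, hR, N' + N, fun n hn => ?_⟩
  obtain ⟨m, rfl⟩ : ∃ m, n = m + N := ⟨n - N, by omega⟩
  have h1 := hN' m (by omega) (m % R) (Finset.mem_range.mpr (Nat.mod_lt _ hR))
    (Nat.mod_modEq m R).symm
  rw [Set.mem_ofPred_eq, Set.mem_ofPred_eq, ← hu0 m, h1, hu0 (m + R)]
  have e : m + R + N = m + N + R := by ring
  rw [e]

end

/-! ### Reduction from complex subvarieties to subvarieties over `K` -/

section

variable {K : Type*} [Field K] (σ : K →+* ℂ) {ι : Type*}

/-- A set of complex polynomials has, on `K`-points, the same zeros as finitely many polynomials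
over `K`. -/
lemma exists_descent [Fintype ι] (I : Set (MvPolynomial ι ℂ)) :
    ∃ G : Finset (MvPolynomial ι K), ∀ v : ι → K,
      (∀ P ∈ I, MvPolynomial.eval (fun i => σ (v i)) P = 0) ↔
        ∀ Q ∈ G, MvPolynomial.eval v Q = 0 := by
  classical
  let _ := σ.toAlgebra
  let b := Module.Free.chooseBasis K ℂ
  let comp : MvPolynomial ι ℂ → Module.Free.ChooseBasisIndex K ℂ → MvPolynomial ι K := fun P k =>
    ∑ J ∈ P.support, MvPolynomial.monomial J (b.repr (P.coeff J) k)
  have hcomp : ∀ (v : ι → K) (P : MvPolynomial ι ℂ) k,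
      b.repr (MvPolynomial.eval (fun i => σ (v i)) P) k = MvPolynomial.eval v (comp P k) := by
    intro v P k
    simp only [comp]
    rw [MvPolynomial.eval_eq', map_sum, map_sum, Finsupp.finsetSum_apply]
    refine Finset.sum_congr rfl fun J _ => ?_
    rw [MvPolynomial.eval_monomial]
    have h1 : P.coeff J * ∏ i, σ (v i) ^ J i = (∏ i, v i ^ J i) • P.coeff J := by
      rw [Algebra.smul_def, mul_comm]
      congr 1
      show _ = σ _
      rw [map_prod]
      simp only [map_pow]
    rw [h1, map_smul, Finsupp.smul_apply, smul_eq_mul, mul_comm,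
      Finsupp.prod_fintype _ _ (fun _ => pow_zero _)]
  let S : Set (MvPolynomial ι K) := {Q | ∃ P ∈ I, ∃ k, Q = comp P k}
  obtain ⟨G, hG⟩ : (Ideal.span S).FG := IsNoetherian.noetherian _
  refine ⟨G, fun v => ?_⟩
  have hspan : ∀ T : Set (MvPolynomial ι K),
      (∀ Q ∈ T, MvPolynomial.eval v Q = 0) ↔ Ideal.span T ≤ RingHom.ker (MvPolynomial.eval v) := by
    intro T
    rw [Ideal.span_le]
    rfl
  have h1 : (∀ P ∈ I, MvPolynomial.eval (fun i => σ (v i)) P = 0) ↔
      ∀ Q ∈ S, MvPolynomial.eval v Q = 0 := by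
    constructor
    · rintro h _ ⟨P, hP, k, rfl⟩
      rw [← hcomp, h P hP]
      simp
    · intro h P hP
      have : b.repr (MvPolynomial.eval (fun i => σ (v i)) P) = 0 := by
        ext k
        rw [hcomp, h _ ⟨P, hP, k, rfl⟩]
        rfl
      simpa using this
  rw [h1, hspan S, ← hG]
  exact (hspan _).symm

end

/-- Orbit of a point under the complexified map. -/
lemma selfMap_iterate {K : Type*} [Field K] {ι : Type*} (σ : K →+* ℂ)
    (Φ : ι → MvPolynomial ι K) (α : ι → K) (n : ℕ) :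
    (selfMap fun i => MvPolynomial.map σ (Φ i))^[n] (fun i => σ (α i)) =
      fun i => σ ((selfMap Φ)^[n] α i) := by
  induction n with
  | zero => rfl
  | succ n ih =>
    rw [Function.iterate_succ_apply', Function.iterate_succ_apply', ih]
    funext i
    simp only [selfMap]
    rw [MvPolynomial.eval_map, ← MvPolynomial.eval₂_id (Φ i),
      MvPolynomial.eval₂_comp_left σ (RingHom.id K) _ (Φ i), RingHom.comp_id]
    rfl

section

variable {K : Type*} [Field K] [NumberField K] (p : ℕ) [Fact p.Prime] (L : Type*)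
  [NontriviallyNormedField L] [NormedAlgebra ℚ_[p] L] [FiniteDimensional ℚ_[p] L]
  {ι : Type*} [Fintype ι] [DecidableEq ι]

include p in
/-- **Main theorem.** -/
theorem main (σ : K →+* ℂ) (φ : K →+* L) {d : ℕ} (hd : 2 ≤ d) (hpd : p ∣ d)
    (Φ : ι → MvPolynomial ι K)
    (hΦ : ∀ i, (Φ i).totalDegree ≤ d) (ha : ∀ i, (Φ i).coeff (Finsupp.single i d) ≠ 0)
    (α : ι → K)
    (H1 : ∀ i, ∀ᶠ n in atTop, (selfMap Φ)^[n] α i ≠ 0)
    (H2 : ∀ i, ∀ J ∈ (Φ i).support, J ≠ Finsupp.single i d →
      Tendsto (fun n => ‖φ (∏ j, (selfMap Φ)^[n] α j ^ J j)‖ / ‖φ ((selfMap Φ)^[n] α i)‖ ^ d)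
        atTop (𝓝 0))
    (I : Set (MvPolynomial ι ℂ)) :
    ∃ T : Finset (ℕ × ℕ),
      {n : ℕ | ∀ P ∈ I, MvPolynomial.eval
        ((selfMap fun i => MvPolynomial.map σ (Φ i))^[n] fun i => σ (α i)) P = 0} =
      {n : ℕ | ∃ t ∈ T, ∃ k : ℕ, n = t.1 + t.2 * k} := by
  obtain ⟨G, hG⟩ := exists_descent σ I
  refine EvPer.exists_progressions ?_
  have e : {n : ℕ | ∀ P ∈ I, MvPolynomial.eval
        ((selfMap fun i => MvPolynomial.map σ (Φ i))^[n] fun i => σ (α i)) P = 0} =
      {n | ∀ Q ∈ G, n ∈ {n | MvPolynomial.eval (fun j => (selfMap Φ)^[n] α j) Q = 0}} := by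
    ext n
    rw [Set.mem_ofPred_eq, selfMap_iterate, hG]
    rfl
  rw [e]
  refine EvPer.iInter_finset G _ fun Q _ => ?_
  refine zero_set_evPer p L φ hd hpd Φ hΦ ha (fun i n => (selfMap Φ)^[n] α i) ?_ H1 H2 Q
  intro i n
  rw [Function.iterate_succ_apply']
  rfl

end

end Pool.Agent.Helper56.DML
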